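import Pool.Agent.R512.G.Minor
import Pool.Agent.Y872.L.Short
import Pool.Agent.Y868.VR.H4
import Pool.Agent.TH823.MRS.Fun
import Pool.Agent.TH823.MRS.Circ2

/-!
Library R512.G (helper512): exponential sums of completely multiplicative functions with values `±1`
which pretend to be no real character.
-/

set_option autoImplicit false

namespace Pool.Agent.R512.G

open Finset Filter Topology Pool.Agent.H376R2.MR Pool.Agent.H970R2.X
open Pool.Agent.H807R2.Dav (ee norm_ee ee_add ee_int ee_pow ee_zero)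
open Pool.Agent.TH823.MRS

/-- uniform bounds for exponential sums with slowly varying weights -/
theorem expo' (u f : ℕ → ℤ) (hu : ∀ n, |u n| ≤ 1) (hb : Bdd f) (hf : TwA u f)
    (hAP : ∀ q b : ℕ, 1 ≤ q → MRK (rs f q b)) : ExpoSmall (fun n => (f n : ℂ)) := by
  classical
  intro ε hε A hA
  obtain ⟨P, hP⟩ := LS_large (max 1 ((15 / ε) ^ 2))
  have hL1 : 1 ≤ LS P := (le_max_left _ _).trans hP
  have hLε : (15 / ε) ^ 2 ≤ LS P := (le_max_right _ _).trans hP
  obtain ⟨W, hW⟩ : ∃ W : ℕ, W = ⌈(P : ℝ) ^ 2 * (1 + 3 * A * P)⌉₊ + P + 1 := ⟨_, rfl⟩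
  have hW1 : 1 ≤ W := by omega
  have hPW : P ≤ W := by omega
  have hPW2 : (P : ℝ) ^ 2 * (1 + 3 * A * P) ≤ W := by
    refine (Nat.le_ceil _).trans ?_
    exact_mod_cast (by omega : ⌈(P : ℝ) ^ 2 * (1 + 3 * A * P)⌉₊ ≤ W)
  have hW0 : (0 : ℝ) < W := by exact_mod_cast hW1
  -- the residue classes
  have hns : ∀ q b : ℕ, ∃ H₀ : ℝ, ∃ X₀ : ℕ, 1 ≤ q → ∀ X : ℕ, X₀ ≤ X → ∀ H : ℝ, H₀ ≤ H → H ≤ X → ∀ T : ℕ → ℂ,
      (∀ n : ℕ, ‖T n‖ ≤ H) → (∀ n m : ℕ, ‖T n - T m‖ ≤ (A + 7 * W) * |(n : ℝ) - m|) → (∀ n : ℕ, 3 * X < n → T n = 0) →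
      ‖∑ n ∈ Icc 1 (3 * X), (rs f q b n : ℂ) * T n‖ ≤ (ε / W) * H * X := by
    intro q b
    rcases Nat.eq_zero_or_pos q with h | h
    · exact ⟨0, 0, fun h' => by omega⟩
    · have hb' : Bdd (rs f q b) := by
        intro n
        unfold rs
        split_ifs
        · exact hb n
        · simp
      obtain ⟨H₀, X₀, h1⟩ := nat_sum (rs f q b) hb' (hAP q b h) (ε / W) (by positivity) (A + 7 * W) (by positivity)
      exact ⟨H₀, X₀, fun _ => h1⟩
  choose H₀f X₀f hns using hns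
  refine ⟨(∑ q ∈ range (W + 1), ∑ b ∈ range q, |H₀f q b|) + 1, (∑ q ∈ range (W + 1), ∑ b ∈ range q, X₀f q b) + P, fun X hX H hH hHX T hT hT2 hT3 α => ?_⟩
  have hsum0 : 0 ≤ ∑ q ∈ range (W + 1), ∑ b ∈ range q, |H₀f q b| := sum_nonneg fun _ _ => sum_nonneg fun _ _ => abs_nonneg _
  have hH0 : 0 < H := by linarith
  have hX0 : (0 : ℝ) < X := by linarith
  by_cases hα : ∀ q : ℕ, 1 ≤ q → q ≤ W → ∀ a : ℤ, (W : ℝ) / H < |α - a / q|
  · refine (minor_bound' u f hu hb hf W X H A hH0 hHX hA T hT hT2 hT3 α hW1 hα P hPW hPW2 hL1 (by omega)).trans ?_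
    have hs : 15 / ε ≤ √(LS P) := Real.le_sqrt_of_sq_le hLε
    have hs0 : 0 < √(LS P) := Real.sqrt_pos.2 (by linarith)
    rw [div_le_iff₀ hs0]
    rw [div_le_iff₀ hε] at hs
    have hHX0 : 0 ≤ H * X := by positivity
    nlinarith
  · push Not at hα
    obtain ⟨q, hq1, hqW, a, ha⟩ := hα
    have hq0 : (0 : ℝ) < q := by exact_mod_cast hq1
    obtain ⟨β, hβ⟩ : ∃ β, β = α - a / q := ⟨_, rfl⟩
    rw [← hβ] at ha
    have hsplit : ∑ n ∈ Icc 1 (3 * X), (f n : ℂ) * ee ((n : ℝ) * α) * T n =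
        ∑ b ∈ range q, ee ((b : ℝ) * (a / q)) * ∑ n ∈ Icc 1 (3 * X), (rs f q b n : ℂ) * (ee ((n : ℝ) * β) * T n) := by
      simp_rw [mul_sum]
      rw [sum_comm]
      apply sum_congr rfl
      intro n _
      rw [sum_eq_single (n % q)]
      · unfold rs
        rw [if_pos rfl]
        have e1 : ee ((n : ℝ) * α) = ee (((n % q : ℕ) : ℝ) * (a / q)) * ee ((n : ℝ) * β) := by
          rw [← ee_add]
          obtain ⟨k, hk⟩ : ∃ k, k = n / q := ⟨_, rfl⟩
          have e2 : (n : ℝ) = q * (k : ℝ) + ((n % q : ℕ) : ℝ) := by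
            rw [hk]
            exact_mod_cast (Nat.div_add_mod n q).symm
          have e3 : (n : ℝ) * α = (((n % q : ℕ) : ℝ) * (a / q) + (n : ℝ) * β) + ((((k : ℤ) * a : ℤ)) : ℝ) := by
            rw [hβ]
            have : (n : ℝ) * α = (n : ℝ) * (a / q) + n * (α - a / q) := by ring
            rw [this]
            have e4 : (n : ℝ) * (a / q) = (((n % q : ℕ) : ℝ) * (a / q)) + ((((k : ℤ) * a : ℤ)) : ℝ) := by
              push_cast
              nth_rewrite 1 [e2]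
              field_simp
              push_cast
              ring
            rw [e4]
            ring
          rw [e3, ee_add, ee_int, mul_one]
        rw [e1]
        ring
      · intro b _ hne
        unfold rs
        rw [if_neg (Ne.symm hne)]
        simp
      · intro h
        exfalso
        apply h
        rw [mem_range]
        exact Nat.mod_lt _ hq1
    rw [hsplit]
    refine (norm_sum_le _ _).trans ?_
    have hterm : ∀ b ∈ range q, ‖ee ((b : ℝ) * (a / q)) * ∑ n ∈ Icc 1 (3 * X), (rs f q b n : ℂ) * (ee ((n : ℝ) * β) * T n)‖ ≤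
        (ε / W) * H * X := by
      intro b hbq
      rw [norm_mul, norm_ee, one_mul]
      have hqW' : q ∈ range (W + 1) := by rw [mem_range]; omega
      have e1 : |H₀f q b| ≤ ∑ q ∈ range (W + 1), ∑ b ∈ range q, |H₀f q b| := by
        have g1 := single_le_sum (f := fun b => |H₀f q b|) (fun b _ => abs_nonneg _) hbq
        have g2 := single_le_sum (f := fun q => ∑ b ∈ range q, |H₀f q b|) (fun q _ => sum_nonneg fun _ _ => abs_nonneg _) hqW'
        exact g1.trans g2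
      have e2 : X₀f q b ≤ ∑ q ∈ range (W + 1), ∑ b ∈ range q, X₀f q b := by
        have g1 := single_le_sum (f := fun b => X₀f q b) (fun b _ => Nat.zero_le _) hbq
        have g2 := single_le_sum (f := fun q => ∑ b ∈ range q, X₀f q b) (fun q _ => Nat.zero_le _) hqW'
        exact g1.trans g2
      have e3 := le_abs_self (H₀f q b)
      apply hns q b hq1 X (by omega) H (by linarith) hHX (fun n => ee ((n : ℝ) * β) * T n)
      · intro n
        rw [norm_mul, norm_ee, one_mul]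
        exact hT n
      · intro n m
        have e4 : ee ((n : ℝ) * β) * T n - ee ((m : ℝ) * β) * T m =
            ee ((n : ℝ) * β) * (T n - T m) + (ee ((n : ℝ) * β) - ee ((m : ℝ) * β)) * T m := by ring
        rw [e4]
        refine (norm_add_le _ _).trans ?_
        rw [norm_mul, norm_mul, norm_ee, one_mul]
        have e5 := ee_lip ((n : ℝ) * β) ((m : ℝ) * β)
        have e6 : |(n : ℝ) * β - m * β| ≤ |(n : ℝ) - m| * (W / H) := by
          rw [← sub_mul, abs_mul]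
          exact mul_le_mul_of_nonneg_left ha (abs_nonneg _)
        have e7 : ‖ee ((n : ℝ) * β) - ee ((m : ℝ) * β)‖ * ‖T m‖ ≤ (7 * (|(n : ℝ) - m| * (W / H))) * H := by
          apply mul_le_mul _ (hT m) (norm_nonneg _) (by positivity)
          exact e5.trans (mul_le_mul_of_nonneg_left e6 (by norm_num))
        have e8 : (7 * (|(n : ℝ) - m| * (W / H))) * H = 7 * W * |(n : ℝ) - m| := by field_simp
        have e9 := hT2 n m
        rw [e8] at e7
        linarith
      · intro n hn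
        rw [hT3 n hn, mul_zero]
    refine (sum_le_sum hterm).trans ?_
    rw [sum_const, card_range, nsmul_eq_mul]
    have hqW2 : (q : ℝ) ≤ W := by exact_mod_cast hqW
    calc (q : ℝ) * ((ε / W) * H * X) ≤ W * ((ε / W) * H * X) := mul_le_mul_of_nonneg_right hqW2 (by positivity)
      _ = ε * H * X := by field_simp

/-! ### Sums over residue classes -/

open Pool.Agent.Y872.L (CM NonPret Tw mr_large rs_bdd cm_abs rs_tw)
open Pool.Agent.Y122.LT (CMC HF)
open Pool.Agent.Y868.VR (NP mean0 hf_of)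

theorem fchi {f : ℕ → ℤ} (hf : CM f) {q : ℕ} (χ : DirichletCharacter ℂ q) :
    CMC (fun n => (f n : ℂ) * χ (n : ZMod q)) where
  zero := by simp [hf.zero]
  one := by simp [hf.one]
  mul m n := by
    rw [hf.mul]
    push_cast
    rw [map_mul]
    ring
  bdd n := by
    rw [norm_mul]
    have h1 := Pool.Agent.Y290.LT.Sup.absf hf n
    have h2 := χ.norm_le_one (n : ZMod q)
    calc ‖(f n : ℂ)‖ * ‖χ (n : ZMod q)‖ ≤ 1 * 1 := mul_le_mul h1 h2 (norm_nonneg _) (by norm_num)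
      _ = 1 := one_mul 1

theorem fchi_np {f : ℕ → ℤ} (hf : CM f) (hn : NonPret f) {q : ℕ} (hq : 0 < q) (χ : DirichletCharacter ℂ q) :
    NP (fun n => (f n : ℂ) * χ (n : ZMod q)) := by
  intro y hs
  have hs' : Summable (fun p : Nat.Primes => Pool.Agent.Y290.LT.Sup.g f χ p 0 y) := by
    refine hs.congr fun p => ?_
    rw [Pool.Agent.Y290.LT.Sup.g_eq _ p.2.pos]
    rfl
  by_cases h : χ ^ 2 ≠ 1 ∨ y ≠ 0
  · exact Pool.Agent.Y290.LT.Sup.nonsumm_A hf χ hq y h hs'
  · push Not at h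
    rw [h.2] at hs'
    exact Pool.Agent.Y290.LT.Sup.nonsumm_B hf χ hq hn h.1 hs'

theorem fchi_mean {f : ℕ → ℤ} (hf : CM f) (hn : NonPret f) {q : ℕ} (hq : 0 < q) (χ : DirichletCharacter ℂ q) :
    Tendsto (fun N : ℕ => (∑ n ∈ Icc 1 N, (f n : ℂ) * χ (n : ZMod q)) / (N : ℂ)) atTop (𝓝 0) :=
  mean0 (fchi hf χ) (hf_of (fchi hf χ) (fchi_np hf hn hq χ))

/-- sums over reduced residue classes -/
theorem cls_cop {f : ℕ → ℤ} (hf : CM f) (hn : NonPret f) (q b : ℕ) (hq : 0 < q) (hbq : Nat.Coprime b q)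
    (ε : ℝ) (hε : 0 < ε) :
    ∃ N₀ : ℕ, ∀ N : ℕ, N₀ ≤ N → |∑ n ∈ Icc 1 N, ((rs f q (b % q) n : ℤ) : ℝ)| ≤ ε * N := by
  classical
  haveI : NeZero q := ⟨hq.ne'⟩
  have hφ : 0 < Fintype.card (DirichletCharacter ℂ q) := Fintype.card_pos
  have hb : IsUnit (b : ZMod q) := (ZMod.isUnit_iff_coprime b q).2 hbq
  have hkey : ∀ n : ℕ, (Fintype.card (DirichletCharacter ℂ q) : ℂ) * ((rs f q (b % q) n : ℤ) : ℂ) =
      ∑ χ : DirichletCharacter ℂ q, χ (b : ZMod q)⁻¹ * ((f n : ℂ) * χ (n : ZMod q)) := by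
    intro n
    have h1 := DirichletCharacter.sum_char_inv_mul_char_eq ℂ hb (n : ZMod q)
    have h2 : ∑ χ : DirichletCharacter ℂ q, χ (b : ZMod q)⁻¹ * ((f n : ℂ) * χ (n : ZMod q)) =
        (f n : ℂ) * ∑ χ : DirichletCharacter ℂ q, χ (b : ZMod q)⁻¹ * χ (n : ZMod q) := by
      rw [mul_sum]
      apply sum_congr rfl
      intro χ _
      ring
    rw [h2, h1]
    unfold rs
    have e2 : ((b : ZMod q) = (n : ZMod q)) ↔ n % q = b % q := by
      rw [ZMod.natCast_eq_natCast_iff']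
      exact eq_comm
    by_cases h : n % q = b % q
    · rw [if_pos h, if_pos (e2.2 h)]
      have e3 : (Fintype.card (DirichletCharacter ℂ q) : ℂ) = (q.totient : ℂ) := by
        rw [← Nat.card_eq_fintype_card]
        have := DirichletCharacter.card_eq_totient_of_hasEnoughRootsOfUnity ℂ q
        rw [this]
      rw [e3]
      ring
    · rw [if_neg h, if_neg (fun hh => h (e2.1 hh))]
      simp
  have hlim : Tendsto (fun N : ℕ => ∑ χ : DirichletCharacter ℂ q, χ (b : ZMod q)⁻¹ *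
      ((∑ n ∈ Icc 1 N, (f n : ℂ) * χ (n : ZMod q)) / (N : ℂ))) atTop (𝓝 0) := by
    have h1 : Tendsto (fun N : ℕ => ∑ χ : DirichletCharacter ℂ q, χ (b : ZMod q)⁻¹ *
      ((∑ n ∈ Icc 1 N, (f n : ℂ) * χ (n : ZMod q)) / (N : ℂ))) atTop
        (𝓝 (∑ χ : DirichletCharacter ℂ q, χ (b : ZMod q)⁻¹ * 0)) :=
      tendsto_finsetSum _ fun χ _ => (fchi_mean hf hn hq χ).const_mul _
    simpa using h1
  rw [Metric.tendsto_atTop] at hlim
  obtain ⟨N₀, hN₀⟩ := hlim ε hε
  refine ⟨N₀ + 1, fun N hN => ?_⟩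
  have hN0 : (0 : ℝ) < N := by exact_mod_cast (by omega : 0 < N)
  have h1 := hN₀ N (by omega)
  rw [dist_zero_right] at h1
  have h2 : ∑ χ : DirichletCharacter ℂ q, χ (b : ZMod q)⁻¹ *
      ((∑ n ∈ Icc 1 N, (f n : ℂ) * χ (n : ZMod q)) / (N : ℂ)) =
      (Fintype.card (DirichletCharacter ℂ q) : ℂ) * ((∑ n ∈ Icc 1 N, ((rs f q (b % q) n : ℤ) : ℝ) : ℝ) : ℂ) / N := by
    push_cast
    rw [mul_sum, sum_congr rfl fun n _ => hkey n, sum_comm, sum_div]
    apply sum_congr rfl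
    intro χ _
    rw [mul_div_assoc', mul_sum]
  rw [h2, norm_div, norm_mul, Complex.norm_natCast, Complex.norm_natCast, Complex.norm_real,
    Real.norm_eq_abs, div_lt_iff₀ hN0] at h1
  have h3 : (1 : ℝ) ≤ Fintype.card (DirichletCharacter ℂ q) := by exact_mod_cast hφ
  have h4 := abs_nonneg (∑ n ∈ Icc 1 N, ((rs f q (b % q) n : ℤ) : ℝ))
  nlinarith

/-- sums over all residue classes -/
theorem cls {f : ℕ → ℤ} (hf : CM f) (hn : NonPret f) (q b : ℕ) (hq : 0 < q) (ε : ℝ) (hε : 0 < ε) :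
    ∃ N₀ : ℕ, ∀ N : ℕ, N₀ ≤ N → |∑ n ∈ Icc 1 N, ((rs f q b n : ℤ) : ℝ)| ≤ ε * N := by
  classical
  rcases Nat.lt_or_ge b q with hbq | hbq
  swap
  · refine ⟨0, fun N _ => ?_⟩
    have : ∀ n ∈ Icc 1 N, ((rs f q b n : ℤ) : ℝ) = 0 := by
      intro n _
      unfold rs
      rw [if_neg]
      · simp
      · intro h
        have := Nat.mod_lt n hq
        omega
    rw [sum_congr rfl this, sum_const_zero, abs_zero]
    positivity
  obtain ⟨d, hd⟩ : ∃ d, d = Nat.gcd b q := ⟨_, rfl⟩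
  have hd0 : 0 < d := by rw [hd]; exact Nat.gcd_pos_of_pos_right _ hq
  obtain ⟨q', hq'⟩ : d ∣ q := by rw [hd]; exact Nat.gcd_dvd_right _ _
  obtain ⟨b', hb'⟩ : d ∣ b := by rw [hd]; exact Nat.gcd_dvd_left _ _
  have hq'0 : 0 < q' := by
    rcases Nat.eq_zero_or_pos q' with h | h
    · rw [h, mul_zero] at hq'; omega
    · exact h
  have hcop : Nat.Coprime b' q' := by
    have h1 : d * Nat.gcd b' q' = d * 1 := by
      rw [← Nat.gcd_mul_left, ← hb', ← hq', mul_one]
      exact hd.symm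
    exact Nat.eq_of_mul_eq_mul_left hd0 h1
  have hb'q' : b' < q' := by
    rw [hb', hq'] at hbq
    exact Nat.lt_of_mul_lt_mul_left hbq
  obtain ⟨N₀, hN₀⟩ := cls_cop hf hn q' b' hq'0 hcop ε hε
  refine ⟨d * N₀ + d, fun N hN => ?_⟩
  rw [Nat.mod_eq_of_lt hb'q'] at hN₀
  have h1 : ∑ n ∈ Icc 1 N, ((rs f q b n : ℤ) : ℝ) =
      (f d : ℝ) * ∑ m ∈ Icc 1 (N / d), ((rs f q' b' m : ℤ) : ℝ) := by
    have h2 : ∑ n ∈ Icc 1 N, ((rs f q b n : ℤ) : ℝ) =
        ∑ n ∈ (Icc 1 N).filter (fun n => d ∣ n), ((rs f q b n : ℤ) : ℝ) := by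
      rw [sum_filter]
      apply sum_congr rfl
      intro n _
      split_ifs with h
      · rfl
      · unfold rs
        rw [if_neg]
        · simp
        · intro hh
          apply h
          have h3 : d ∣ n % q := by rw [hh, hb']; exact dvd_mul_right _ _
          have h4 : d ∣ q * (n / q) := by
            rw [hq']
            exact Dvd.dvd.mul_right (dvd_mul_right _ _) _
          have h5 := Nat.div_add_mod n q
          rw [← h5]
          exact dvd_add h4 h3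
    rw [h2, mul_sum]
    symm
    apply sum_nbij' (fun m => d * m) (fun n => n / d)
    · intro m hm
      rw [mem_Icc] at hm
      rw [mem_filter, mem_Icc]
      refine ⟨⟨Nat.mul_pos hd0 (by omega), ?_⟩, dvd_mul_right _ _⟩
      exact (Nat.mul_le_mul_left d hm.2).trans (Nat.mul_div_le N d)
    · intro n hn
      rw [mem_filter, mem_Icc] at hn
      rw [mem_Icc]
      exact ⟨Nat.div_pos (Nat.le_of_dvd (by omega) hn.2) hd0, Nat.div_le_div_right hn.1.2⟩
    · intro m _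
      exact Nat.mul_div_cancel_left _ hd0
    · intro n hn
      rw [mem_filter] at hn
      exact Nat.mul_div_cancel' hn.2
    · intro m _
      unfold rs
      have e : (d * m) % q = b ↔ m % q' = b' := by
        rw [hq', Nat.mul_mod_mul_left, hb']
        constructor
        · intro h
          exact Nat.eq_of_mul_eq_mul_left hd0 h
        · intro h
          rw [h]
      by_cases h : m % q' = b'
      · rw [if_pos h, if_pos (e.2 h), hf.mul]
        push_cast
        rfl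
      · rw [if_neg h, if_neg (fun hh => h (e.1 hh))]
        simp
  rw [h1, abs_mul]
  have h2 : |(f d : ℝ)| ≤ 1 := by
    have := cm_abs hf d
    exact_mod_cast this
  have h3 := hN₀ (N / d) (by
    rw [Nat.le_div_iff_mul_le hd0]
    rw [mul_comm]
    omega)
  calc |(f d : ℝ)| * |∑ m ∈ Icc 1 (N / d), ((rs f q' b' m : ℤ) : ℝ)| ≤
        1 * (ε * ((N / d : ℕ) : ℝ)) := mul_le_mul h2 h3 (abs_nonneg _) zero_le_one
    _ ≤ ε * N := by
        rw [one_mul]
        apply mul_le_mul_of_nonneg_left _ hε.le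
        exact_mod_cast Nat.div_le_self N d

/-- the mean squares over all frequencies -/
theorem mrk {f : ℕ → ℤ} (hf : CM f) (hn : NonPret f) (q b : ℕ) (hq : 1 ≤ q) : MRK (rs f q b) := by
  intro η hη
  obtain ⟨c, hc, hR⟩ := rich_ap q hq
  obtain ⟨T₀, h, hh, Y₀, hmr⟩ := mr_large (P1 q) f (rs f q b) (cm_abs hf) (rs_bdd hf q b)
    (rs_tw hf q b) c hc hR (η / 2) (by linarith)
  obtain ⟨Y₁, hsm⟩ := xmrg_small (rs f q b) (smf_abel _ fun ε hε => cls hf hn q b hq ε hε) T₀ (η / 2)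
    (by linarith)
  refine ⟨h, hh, max Y₀ Y₁, fun Y hY => ?_⟩
  have h1 := hmr Y ((le_max_left _ _).trans hY)
  have h2 := hsm Y ((le_max_right _ _).trans hY)
  rw [← sum_filter_add_sum_filter_not (FK ⌊Y / h⌋₊) (fun k : ℤ => T₀ ≤ k.natAbs)]
  have h3 : ∑ k ∈ (FK ⌊Y / h⌋₊).filter (fun k : ℤ => ¬ T₀ ≤ k.natAbs), ‖GGg (rs f q b) Y k‖ ^ 2 ≤
      ∑ k ∈ FK T₀, ‖GGg (rs f q b) Y k‖ ^ 2 := by
    apply sum_le_sum_of_subset_of_nonneg _ (fun _ _ _ => by positivity)
    intro k hk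
    rw [mem_filter] at hk
    rw [FK, mem_Ioo]
    have := hk.2
    omega
  linarith

/-- **exponential sums** -/
theorem expoS {f : ℕ → ℤ} (hf : CM f) (hn : NonPret f) : ExpoSmall (fun n => (f n : ℂ)) :=
  expo' f f (cm_abs hf) (cm_abs hf) (fun p m _ _ => hf.mul p m) fun q b hq => mrk hf hn q b hq

end Pool.Agent.R512.G
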