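import Pool.Agent.R512.G.Real

/-!
Library R512.G (helper512): final statement for fixed functions.
-/

set_option autoImplicit false

namespace Pool.Agent.R512.G

open Finset Filter Topology
open Pool.Agent.Y872.L (CM NonPret Pr cm_abs)
open Pool.Agent.Y958.U
open Pool.Agent.Y958.E

/-- the sums of `(1 - r p χ p) / p` diverge for all real characters -/
def NoReal (r : ℕ → ℝ) : Prop := ∀ (q : ℕ) (χ : DirichletCharacter ℂ q), 1 ≤ q → χ ^ 2 = 1 →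
  ¬ Summable (fun p : Nat.Primes => (1 - r p * (χ ((p : ℕ) : ZMod q)).re) / ((p : ℕ) : ℝ))

lemma nonPret_of {f : ℕ → ℤ} (hf : CM f) (h : NoReal (fun n => (f n : ℝ))) : NonPret f := by
  classical
  intro Q hQ χ hχ hP
  apply h Q χ hQ hχ
  have hP' : Summable (fun p : Nat.Primes => if ((p : ℕ)).Prime ∧ ((f p : ℤ) : ℂ) ≠ χ ((p : ℕ) : ZMod Q)
      then 1 / (((p : ℕ) : ℕ) : ℝ) else 0) := by
    have h1 : Summable (fun p : ℕ => if p.Prime ∧ ((f p : ℤ) : ℂ) ≠ χ ((p : ℕ) : ZMod Q)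
      then 1 / ((p : ℕ) : ℝ) else 0) := by
      refine hP.congr fun p => ?_
      congr!
    exact h1.subtype _
  refine Summable.of_nonneg_of_le (fun p => ?_) (fun p => ?_) (hP'.mul_left 2)
  · apply div_nonneg _ (Nat.cast_nonneg _)
    show 0 ≤ 1 - ((f p : ℤ) : ℝ) * (χ ((p : ℕ) : ZMod Q)).re
    rcases hf.val p p.2.pos with h1 | h1 <;> rcases real_char χ hχ ((p : ℕ) : ZMod Q) with h2 | h2 | h2 <;>
      rw [h1, h2] <;> norm_num
  · show (1 - ((f p : ℤ) : ℝ) * (χ ((p : ℕ) : ZMod Q)).re) / ((p : ℕ) : ℝ) ≤ _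
    have hp0 : (0 : ℝ) < ((p : ℕ) : ℝ) := by exact_mod_cast p.2.pos
    by_cases hpe : ((f p : ℤ) : ℂ) = χ ((p : ℕ) : ZMod Q)
    · rw [if_neg (fun h => h.2 hpe), mul_zero]
      apply le_of_eq
      rw [← hpe]
      rcases hf.val p p.2.pos with h1 | h1 <;> rw [h1] <;> norm_num
    · rw [if_pos ⟨p.2, hpe⟩, mul_one_div]
      apply div_le_div_of_nonneg_right _ hp0.le
      rcases hf.val p p.2.pos with h1 | h1 <;> rcases real_char χ hχ ((p : ℕ) : ZMod Q) with h2 | h2 | h2 <;>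
        rw [h1, h2] <;> norm_num

/-- real valued and no real character, or near a completely multiplicative function with values `±1`
twisted by a Dirichlet character and `n ^ (i t)` -/
def Adm (g : ℕ → ℂ) : Prop :=
  (∃ r : ℕ → ℝ, (∀ n, g n = (r n : ℂ)) ∧ NoReal r) ∨
  ∃ f : ℕ → ℤ, CM f ∧ NoReal (fun n => (f n : ℝ)) ∧ PretF f g

lemma adm_dich {g : ℕ → ℂ} (hg : BM g) (h : Adm g) :
    (¬ Summable (fun p : Nat.Primes => (1 - ‖g p‖) / ((p : ℕ) : ℝ))) ∨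
      ∃ f : ℕ → ℤ, CM f ∧ NonPret f ∧ PretF f g := by
  rcases h with ⟨r, hr, hN⟩ | ⟨f, hf, hN, hP⟩
  · apply dich hg
    · intro n
      rw [hr n]
      exact Complex.ofReal_im _
    · intro q χ hq hχ hs
      apply hN q χ hq hχ
      refine hs.congr fun p => ?_
      congr 2
      rw [hr p, Complex.re_ofReal_mul, Complex.conj_re]
  · exact Or.inr ⟨f, hf, nonPret_of hf hN, hP⟩

/-- **final statement** for fixed functions -/
theorem finR : ∃ c : ℕ → ℝ, (∀ k, 0 < c k) ∧ (∀ k, c k < 1) ∧ ∀ (k : ℕ) (a b : Fin k → ℕ), (∀ i, 1 ≤ a i) →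
    (∀ i j, i ≠ j → a i * b j ≠ a j * b i) → ∀ g : Fin k → ℕ → ℂ, (∀ i, BM (g i)) →
    ∀ j, Adm (g j) →
    ∃ 𝓔 : Set ℕ, LZ 𝓔 ∧ ∀ ε : ℝ, 0 < ε → ∃ N₀ : ℕ, ∀ N : ℕ, N₀ ≤ N →
      (N ∉ 𝓔 → ‖∑ n ∈ Icc 1 N, ∏ i, g i (a i * n + b i)‖ ≤
        (1 - c k) * ∑ n ∈ Icc 1 N, ‖g j (a j * n + b j)‖ + ε * N) ∧
      ‖∑ n ∈ Icc 1 N, (∏ i, g i (a i * n + b i)) / n‖ ≤
        (1 - c k) * ∑ n ∈ Icc 1 N, ‖g j (a j * n + b j)‖ / n + ε * Real.log N := by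
  classical
  obtain ⟨c, hc0, hc1, h⟩ := finG
  refine ⟨c, hc0, hc1, fun k a b ha hab g hg j hj => ?_⟩
  rcases adm_dich (hg j) hj with h1 | ⟨f, hf, hnp, hP⟩
  swap
  · exact h k a b ha hab g hg j f hf hnp hP
  have hc1k := hc1 k
  have hCs1 : ∀ n, ‖Cs a b g n‖ ≤ 1 := by
    intro n
    unfold Cs
    rw [norm_prod]
    exact prod_le_one (fun _ _ => norm_nonneg _) fun i _ => (hg i).1 _
  have hCs2 : ∀ n, ‖Cs a b g n‖ ≤ ‖g j (a j * n + b j)‖ := by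
    intro n
    unfold Cs
    rw [norm_prod, ← mul_prod_erase univ _ (mem_univ j)]
    exact mul_le_of_le_one_right (norm_nonneg _)
      (prod_le_one (fun _ _ => norm_nonneg _) fun i _ => (hg i).1 _)
  have hsm : ∀ ε : ℝ, 0 < ε → ∃ N₀ : ℕ, ∀ N : ℕ, N₀ ≤ N → ‖∑ n ∈ Icc 1 N, Cs a b g n‖ ≤
      (1 - c k) * ∑ n ∈ Icc 1 N, ‖g j (a j * n + b j)‖ + ε * N := by
    intro ε hε
    obtain ⟨N₀, hN₀⟩ := abs_small (hg j) h1 (a j) (b j) (ha j) ε hε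
    refine ⟨N₀, fun N hN => ?_⟩
    have h2 : ‖∑ n ∈ Icc 1 N, Cs a b g n‖ ≤ ∑ n ∈ Icc 1 N, ‖g j (a j * n + b j)‖ :=
      (norm_sum_le _ _).trans (sum_le_sum fun n _ => hCs2 n)
    have h3 := hN₀ N hN
    have h4 : 0 ≤ (1 - c k) * ∑ n ∈ Icc 1 N, ‖g j (a j * n + b j)‖ :=
      mul_nonneg (by linarith) (sum_nonneg fun _ _ => norm_nonneg _)
    linarith
  refine ⟨∅, LZ_bdd ∅ 0 (fun n hn => absurd hn (Set.notMem_empty n)), fun ε hε => ?_⟩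
  obtain ⟨N₀, hN₀⟩ := hsm ε hε
  obtain ⟨N₁, hN₁⟩ := hsm (ε / 4) (by positivity)
  obtain ⟨X₀, hX₀⟩ := logC (Cs a b g) (fun n => ‖g j (a j * n + b j)‖) hCs1 (fun n => norm_nonneg _)
    (c k) (ε / 4) (hc1 k) (by positivity) (by
      apply LZ_bdd _ N₁
      intro N hN
      by_contra hcon
      have := hN₁ N (not_lt.1 hcon)
      rw [Set.mem_setOf_eq] at hN
      linarith)
  refine ⟨N₀ + X₀, fun N hN => ⟨fun _ => hN₀ N (by omega), ?_⟩⟩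
  have h2 := hX₀ N (by omega)
  have e : 4 * (ε / 4) = ε := by ring
  rw [e] at h2
  exact h2

end Pool.Agent.R512.G
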