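import Pool.Agent.R512.G.Thm
import Pool.Agent.R512.G.Expo
import Pool.Agent.Y958.E.Res

/-!
Library R512.G (helper512): one factor near a completely multiplicative function with values `±1` which
pretends to be no real character, arbitrary other multiplicative functions, linear forms.
-/

set_option autoImplicit false

namespace Pool.Agent.R512.G

open Finset Filter Topology
open Pool.Agent.Y872.L (CM NonPret cm_abs)
open Pool.Agent.Y958.U
open Pool.Agent.Y958.E
open Pool.Agent.Y958.TC (ind)

lemma cm_sq {f : ℕ → ℤ} (hf : CM f) {n : ℕ} (hn : n ≠ 0) : f n * f n = 1 := by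
  rcases hf.val n (Nat.pos_of_ne_zero hn) with h | h <;> rw [h] <;> norm_num

lemma cm_sqC {f : ℕ → ℤ} (hf : CM f) {n : ℕ} (hn : n ≠ 0) : ((f n : ℤ) : ℂ) * ((f n : ℤ) : ℂ) = 1 := by
  exact_mod_cast cm_sq hf hn

lemma cm_le {f : ℕ → ℤ} (hf : CM f) (n : ℕ) : ‖((f n : ℤ) : ℂ)‖ ≤ 1 := by
  rw [Complex.norm_intCast]
  exact_mod_cast cm_abs hf n

lemma cm_norm {f : ℕ → ℤ} (hf : CM f) {n : ℕ} (hn : n ≠ 0) : ‖((f n : ℤ) : ℂ)‖ = 1 := by
  have h := congrArg norm (cm_sqC hf hn)
  rw [norm_mul, norm_one] at h
  have h0 := norm_nonneg ((f n : ℤ) : ℂ)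
  nlinarith

lemma locD_cm {f : ℕ → ℤ} (hf : CM f) : LocD f (fun _ p => if p = 0 then 1 else f p) Set.univ := by
  intro W
  refine ⟨0, fun N _ _ M _ _ p hp _ n _ _ _ => ?_⟩
  show f (p * n) = (if p = 0 then 1 else f p) * f n
  rw [if_neg hp.ne_zero]
  exact hf.mul p n

open Classical in
/-- the two point correlations at almost all scales -/
theorem e2_cm {f : ℕ → ℤ} (hf : CM f) (hn : NonPret f) (V : ℕ → Prop) (A : ℕ) (hA : 1 ≤ A)
    (hV : ∀ n, V (n + A) ↔ V n) (R : ℕ) (hR : 1 ≤ R) (δ : ℝ) (hδ : 0 < δ) : LZ (E2 f V A R δ) := by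
  refine E2_G (nullLZ s_avc) f (cm_abs hf) (fun _ p => if p = 0 then 1 else f p) ?_ Set.univ ?_
    (locD_cm hf) (expoS hf hn) V A R hA hV hR δ hδ
  · intro M p
    show (if p = 0 then 1 else f p) * (if p = 0 then 1 else f p) = 1
    split_ifs with h
    · norm_num
    · exact cm_sq hf h
  · rw [Set.compl_univ]
    exact LZ_bdd ∅ 0 (fun n hn => absurd hn (Set.notMem_empty n))

/-- the exceptional scales for one residue class -/
noncomputable def SrF (f : ℕ → ℤ) {d : ℕ} (a b : Fin (d + 1) → ℕ) (g : Fin d → ℕ → ℂ) (Q r N : ℕ) : ℂ :=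
  ∑ n ∈ Icc 1 N, (ind (fun n => n % Q = r % Q) n : ℂ) * ((f (a 0 * n + b 0) : ℤ) : ℂ) *
    ∏ i : Fin d, g i (a i.succ * n + b i.succ)

theorem forms0 (hT : S_TKL) (d : ℕ) : ∃ c : ℝ, 0 < c ∧ c < 1 ∧ ∀ f : ℕ → ℤ, CM f → NonPret f →
    ∀ (a b : Fin (d + 1) → ℕ), (∀ i, 1 ≤ a i) →
    (∀ i j, i ≠ j → a i * b j ≠ a j * b i) → ∀ g : Fin d → ℕ → ℂ, (∀ i, BM (g i)) →
    ∀ Q r : ℕ, 1 ≤ Q → LZ {N : ℕ | (1 - c) * ((N : ℝ) / Q) < ‖SrF f a b g Q r N‖} := by
  classical
  obtain ⟨c, hc0, hc1, hU⟩ := mainG d
  refine ⟨c / 2, by positivity, by linarith, fun f hf hnp a b ha hab g hg Q r hQ => ?_⟩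
  have hd0 : (0 : ℝ) < (d : ℝ) + 1 := by positivity
  set τ : ℝ := c / ((d : ℝ) + 1) with hτ
  have hτ0 : 0 < τ := by positivity
  have hτ1 : τ < 1 := by
    rw [hτ, div_lt_one hd0]
    have : (0 : ℝ) ≤ d := Nat.cast_nonneg _
    linarith
  have hτd : (d : ℝ) * τ ≤ c := by
    rw [hτ, mul_div_assoc', div_le_iff₀ hd0]
    nlinarith
  obtain ⟨K, hK⟩ := hT τ hτ0 hτ1
  have hQ0 : (0 : ℝ) < Q := by exact_mod_cast hQ
  by_cases hcase : ∃ (i : Fin d) (z : ℕ), K ≤ ∑ p ∈ (Icc 1 z).filter
      (fun p => p.Prime ∧ ¬ p ∣ a i.succ * Q ∧ ‖g i p‖ < 1 - τ), 1 / (p : ℝ)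
  · -- the averages of `g i` are small
    obtain ⟨i, z, hz⟩ := hcase
    have haQ : 1 ≤ a i.succ * Q := Nat.one_le_iff_ne_zero.2
      (Nat.mul_ne_zero (by have := ha i.succ; omega) (by omega))
    obtain ⟨N₀, hN₀⟩ := hK (a i.succ * Q) (a i.succ * (r % Q) + b i.succ) z haQ
    have h1 := hN₀ (g i) (hg i) hz
    obtain ⟨N₁, hN₁⟩ := exists_nat_ge ((Q : ℝ) / (1 - c))
    apply LZ_bdd _ (N₀ * Q + N₁ + 1)
    intro N hN
    by_contra hcon
    push Not at hcon
    rw [Set.mem_setOf_eq] at hN
    have h2 : ‖SrF f a b g Q r N‖ ≤ ∑ m ∈ range (N / Q + 1), ‖g i (a i.succ * Q * m + (a i.succ * (r % Q) + b i.succ))‖ := by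
      unfold SrF
      refine (norm_sum_le _ _).trans ?_
      have h3 : ∀ n ∈ Icc 1 N, ‖(ind (fun n => n % Q = r % Q) n : ℂ) * ((f (a 0 * n + b 0) : ℤ) : ℂ) *
          ∏ i : Fin d, g i (a i.succ * n + b i.succ)‖ ≤
          if n % Q = r % Q then ‖g i (a i.succ * n + b i.succ)‖ else 0 := by
        intro n _
        rw [norm_mul, norm_mul]
        split_ifs with hn
        · have e1 : ind (fun n => n % Q = r % Q) n = 1 := by unfold Pool.Agent.Y958.TC.ind; rw [if_pos hn]
          rw [e1, Complex.ofReal_one, norm_one, one_mul, norm_prod, ← mul_prod_erase univ _ (mem_univ i)]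
          have h4 : ∏ x ∈ univ.erase i, ‖g x (a x.succ * n + b x.succ)‖ ≤ 1 :=
            prod_le_one (fun _ _ => norm_nonneg _) fun j _ => (hg j).1 _
          have h5 : ‖g i (a i.succ * n + b i.succ)‖ * ∏ x ∈ univ.erase i, ‖g x (a x.succ * n + b x.succ)‖ ≤
              ‖g i (a i.succ * n + b i.succ)‖ := by
            calc ‖g i (a i.succ * n + b i.succ)‖ * ∏ x ∈ univ.erase i, ‖g x (a x.succ * n + b x.succ)‖ ≤
                ‖g i (a i.succ * n + b i.succ)‖ * 1 := mul_le_mul_of_nonneg_left h4 (norm_nonneg _)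
              _ = _ := mul_one _
          have h6 : 0 ≤ ‖g i (a i.succ * n + b i.succ)‖ *
              ∏ x ∈ univ.erase i, ‖g x (a x.succ * n + b x.succ)‖ :=
            mul_nonneg (norm_nonneg _) (prod_nonneg fun _ _ => norm_nonneg _)
          exact (mul_le_of_le_one_left h6 (cm_le hf _)).trans h5
        · have e1 : ind (fun n => n % Q = r % Q) n = 0 := by unfold Pool.Agent.Y958.TC.ind; rw [if_neg hn]
          rw [e1, Complex.ofReal_zero, norm_zero, zero_mul, zero_mul]
      refine (sum_le_sum h3).trans ?_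
      rw [← sum_filter]
      have h4 : ∑ n ∈ (Icc 1 N).filter (fun n => n % Q = r % Q), ‖g i (a i.succ * n + b i.succ)‖ =
          ∑ m ∈ ((Icc 1 N).filter (fun n => n % Q = r % Q)).image (fun n => n / Q),
            ‖g i (a i.succ * Q * m + (a i.succ * (r % Q) + b i.succ))‖ := by
        rw [sum_image]
        · apply sum_congr rfl
          intro n hn
          rw [mem_filter] at hn
          congr 2
          have h5 := Nat.div_add_mod n Q
          rw [hn.2] at h5
          calc a i.succ * n + b i.succ = a i.succ * (Q * (n / Q) + r % Q) + b i.succ := by rw [h5]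
            _ = _ := by ring
        · intro n hn m hm hnm
          rw [mem_coe, mem_filter] at hn hm
          have h5 := Nat.div_add_mod n Q
          have h6 := Nat.div_add_mod m Q
          simp only at hnm
          rw [← h5, ← h6, hnm, hn.2, hm.2]
      rw [h4]
      apply sum_le_sum_of_subset_of_nonneg
      · intro m hm
        rw [mem_image] at hm
        obtain ⟨n, hn, rfl⟩ := hm
        rw [mem_filter, mem_Icc] at hn
        rw [mem_range]
        have := Nat.div_le_div_right (c := Q) hn.1.2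
        omega
      · intro m _ _
        exact norm_nonneg _
    have hNQ : N₀ ≤ N / Q + 1 := by
      have h5 : N₀ ≤ N / Q := by
        rw [Nat.le_div_iff_mul_le (by omega)]
        omega
      omega
    have h3 := h2.trans (h1 (N / Q + 1) hNQ)
    have h4 := hN.trans_le h3
    push_cast at h4
    have h5 : ((N / Q : ℕ) : ℝ) ≤ N / Q := Nat.cast_div_le
    have h6 : (Q : ℝ) / (1 - c) ≤ N := hN₁.trans (by exact_mod_cast (by omega : N₁ ≤ N))
    rw [div_le_iff₀ (by linarith)] at h6
    have h7 : 1 ≤ (N : ℝ) / Q * (1 - c) := by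
      rw [div_mul_eq_mul_div, le_div_iff₀ hQ0, one_mul]
      exact h6
    nlinarith
  · -- the main case
    push Not at hcase
    set A : ℕ := ∏ i, a i with hAd
    have hA : 1 ≤ A := Nat.one_le_iff_ne_zero.2 (prod_ne_zero_iff.2 fun i _ => by have := ha i; omega)
    have hA0 : (0 : ℝ) < A := by exact_mod_cast hA
    set B : Fin (d + 1) → ℕ := fun i => ∏ j ∈ univ.erase i, a j with hB
    have hBA : ∀ i, a i * B i = A := by
      intro i
      rw [hB, hAd]
      exact mul_prod_erase univ a (mem_univ i)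
    have hB0 : ∀ i, B i ≠ 0 := fun i h => by
      have := hBA i
      rw [h, mul_zero] at this
      omega
    set x : Fin (d + 1) → ℕ := fun i => B i * b i with hx
    have hxi : Function.Injective x := by
      intro i j hij
      by_contra hne
      apply hab i j hne
      simp only [hx] at hij
      have h1 : A * (a i * b j) = A * (a j * b i) := by
        calc A * (a i * b j) = a i * (a j * (B j * b j)) := by rw [← hBA j]; ring
          _ = a i * (a j * (B i * b i)) := by rw [hij]
          _ = A * (a j * b i) := by rw [← hBA i]; ring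
      exact Nat.eq_of_mul_eq_mul_left (by omega) h1
    set A' : ℕ := A * Q with hA'd
    have hA' : 1 ≤ A' := Nat.one_le_iff_ne_zero.2 (Nat.mul_ne_zero (by omega) (by omega))
    set V : ℕ → Prop := fun m => m % A' = (A * r) % A' with hV
    have hVp : ∀ n, V (n + A') ↔ V n := by
      intro n
      simp only [hV, Nat.add_mod_right]
    have hdvV : dv V A' = 1 / A' := dv_class A' (A * r) hA'
    set F : Fin d → ℕ → ℂ := fun i m => if B i.succ ∣ m then g i (m / B i.succ) else 0 with hF
    have hF1 : ∀ i n, ‖F i n‖ ≤ 1 := by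
      intro i n
      simp only [hF]
      split_ifs
      · exact (hg i).1 _
      · simp
    set s : ℕ → ℂ := fun p => if p ∣ A' then 1 else ((f p : ℤ) : ℂ) * ∏ i, g i p with hs
    set Bad : Set ℕ := {p | p = 0 ∨ (¬ p ∣ A' ∧ ∃ i, ‖g i p‖ < 1 - τ)} with hBad
    have h1 := hU LZ (nullLZ s_avc) f (cm_abs hf) V A' hA' hVp
      (by rw [hdvV]; have : (0 : ℝ) < A' := by exact_mod_cast hA'
          positivity) (e2_cm hf hnp V A' hA' hVp) x hxi F hF1 (fun _ => Bad) (fun _ => s) (d * K)
      (by
        intro _ p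
        simp only [hs]
        split_ifs
        · simp
        · rw [norm_mul, norm_prod]
          have h1 : ∏ i : Fin d, ‖g i p‖ ≤ 1 :=
            prod_le_one (fun i _ => norm_nonneg _) fun i _ => (hg i).1 _
          have h2 : 0 ≤ ∏ i : Fin d, ‖g i p‖ := prod_nonneg fun _ _ => norm_nonneg _
          exact (mul_le_of_le_one_left h2 (cm_le hf _)).trans h1)
      (by
        intro _ p hp
        simp only [hs]
        split_ifs with hpA
        · simp; linarith
        · have hp0 : p ≠ 0 := fun h => hp (Or.inl h)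
          have h2 : ∀ i, 1 - τ ≤ ‖g i p‖ := by
            intro i
            by_contra hcon
            exact hp (Or.inr ⟨hpA, i, not_le.1 hcon⟩)
          rw [norm_mul, cm_norm hf hp0, one_mul, norm_prod]
          have h3 : (1 - τ) ^ d ≤ ∏ i : Fin d, ‖g i p‖ := by
            calc (1 - τ) ^ d = ∏ _i : Fin d, (1 - τ) := by simp
              _ ≤ ∏ i : Fin d, ‖g i p‖ := prod_le_prod (fun i _ => by linarith) fun i _ => h2 i
          have h4 := one_add_mul_le_pow (show (-2 : ℝ) ≤ -τ by linarith) d
          have h5 : (1 : ℝ) + d * -τ = 1 - d * τ := by ring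
          rw [h5] at h4
          have h6 : (1 : ℝ) + -τ = 1 - τ := by ring
          rw [h6] at h4
          linarith)
      (by
        intro _ X
        have h2 : ∑ p ∈ (Icc 1 X).filter (fun p => p.Prime ∧ p ∈ Bad), (1 : ℝ) / p ≤
            ∑ i : Fin d, ∑ p ∈ (Icc 1 X).filter
              (fun p => p.Prime ∧ ¬ p ∣ a i.succ * Q ∧ ‖g i p‖ < 1 - τ), 1 / (p : ℝ) := by
          simp only [sum_filter]
          rw [sum_comm]
          apply sum_le_sum
          intro p _
          split_ifs with hp
          · obtain ⟨hpp, hpB⟩ := hp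
            obtain ⟨hpA, i, hi⟩ : ¬ p ∣ A' ∧ ∃ i, ‖g i p‖ < 1 - τ := by
              rcases hpB with h | h
              · exact absurd h hpp.ne_zero
              · exact h
            have h3 : ¬ p ∣ a i.succ * Q := by
              intro hd
              apply hpA
              refine hd.trans ?_
              rw [hA'd, ← hBA i.succ]
              exact Nat.mul_dvd_mul (dvd_mul_right _ _) (dvd_refl _)
            refine le_trans ?_ (single_le_sum (f := fun i : Fin d => if p.Prime ∧ ¬ p ∣ a i.succ * Q ∧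
              ‖g i p‖ < 1 - τ then 1 / (p : ℝ) else 0) (fun i _ => by split_ifs <;> positivity) (mem_univ i))
            rw [if_pos ⟨hpp, h3, hi⟩]
          · exact sum_nonneg fun i _ => by split_ifs <;> positivity
        have h3 : ∑ i : Fin d, ∑ p ∈ (Icc 1 X).filter
              (fun p => p.Prime ∧ ¬ p ∣ a i.succ * Q ∧ ‖g i p‖ < 1 - τ), 1 / (p : ℝ) ≤ d * K := by
          refine (sum_le_sum fun i _ => (hcase i X).le).trans (le_of_eq ?_)
          rw [sum_const, card_univ, Fintype.card_fin, nsmul_eq_mul]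
        exact le_of_eq_of_le (by congr!) (h2.trans h3))
      {N | (1 - c) * dv V A' < ‖AvC N (ps f V F x)‖}
      (by
        intro W
        refine ⟨0, fun N _ _ M _ _ p hp _ hpA _ k _ _ hk => ?_⟩
        have hpA' := prime_ndvd hp hpA
        simp only [hs]
        rw [if_neg hpA', hf.mul]
        have key : ∏ i : Fin d, F i (p * (k + x i.succ)) =
            (∏ i : Fin d, g i p) * ∏ i : Fin d, F i (k + x i.succ) := by
          rw [← prod_mul_distrib]
          apply prod_congr rfl
          intro i _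
          have hki := hk i.succ
          set m := k + x i.succ with hm
          have hm0 : m ≠ 0 := fun h => hki (by rw [h]; exact dvd_zero p)
          have hBd : B i.succ ∣ A' := by
            rw [hA'd, ← hBA i.succ]
            exact dvd_mul_of_dvd_left (dvd_mul_left _ _) _
          have hcop : Nat.Coprime (B i.succ) p := by
            rw [Nat.coprime_comm, Nat.Prime.coprime_iff_not_dvd hp]
            exact fun h => hpA' (h.trans hBd)
          simp only [hF]
          by_cases hd : B i.succ ∣ m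
          · obtain ⟨m', hm'⟩ := hd
            have e1 : p * m = B i.succ * (p * m') := by rw [hm']; ring
            rw [e1, if_pos (dvd_mul_right _ _), hm', if_pos (dvd_mul_right _ _),
              Nat.mul_div_cancel_left _ (Nat.pos_of_ne_zero (hB0 _)),
              Nat.mul_div_cancel_left _ (Nat.pos_of_ne_zero (hB0 _))]
            have hm'0 : m' ≠ 0 := by
              rintro rfl
              rw [mul_zero] at hm'
              exact hm0 hm'
            apply (hg i).2 p m' hp.one_le (Nat.one_le_iff_ne_zero.2 hm'0)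
            rw [Nat.Prime.coprime_iff_not_dvd hp]
            intro h
            apply hki
            rw [hm']
            exact dvd_mul_of_dvd_right h _
          · rw [if_neg hd, if_neg, mul_zero]
            intro h
            exact hd (hcop.dvd_of_dvd_mul_left h)
        rw [key]
        push_cast
        ring)
      (fun N hN => hN)
    have h2 := LZ_union (LZ_pull _ A hA h1) (LZ_bdd {N | N < ⌈4 * Q / c⌉₊} _ fun n hn => hn)
    refine LZ_sub ?_ h2
    intro N hN
    by_cases hNK : N < ⌈4 * Q / c⌉₊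
    · exact Or.inr hNK
    left
    rw [Set.mem_setOf_eq] at hN
    show (1 - c) * dv V A' < ‖AvC (A * (N + 1)) (ps f V F x)‖
    have hNr : 4 * Q / c ≤ N := (Nat.le_ceil _).trans (Nat.cast_le.2 (not_lt.1 hNK))
    rw [div_le_iff₀ hc0] at hNr
    have hVA : ∀ n, V (A * n) ↔ n % Q = r % Q := by
      intro n
      simp only [hV, hA'd]
      rw [Nat.mul_mod_mul_left, Nat.mul_mod_mul_left]
      constructor
      · intro h
        exact Nat.eq_of_mul_eq_mul_left (by omega) h
      · intro h
        rw [h]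
    have hpsz : ∀ m, ¬ A ∣ m → ps f V F x m = 0 := by
      intro m hm
      unfold ps
      have : ind V m = 0 := by
        unfold Pool.Agent.Y958.TC.ind
        rw [if_neg]
        intro hv
        apply hm
        have h3 : m ≡ A * r [MOD A'] := hv
        have h4 := h3.of_dvd (show A ∣ A' from dvd_mul_right A Q)
        have h5 : m ≡ 0 [MOD A] := h4.trans ((Nat.modEq_zero_iff_dvd).2 (dvd_mul_right A r))
        exact (Nat.modEq_zero_iff_dvd).1 h5
      rw [this]
      simp
    have hpsn : ∀ n, ps f V F x (A * n) = ((f (B 0) : ℤ) : ℂ) *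
        ((ind (fun n => n % Q = r % Q) n : ℂ) * ((f (a 0 * n + b 0) : ℤ) : ℂ) *
          ∏ i : Fin d, g i (a i.succ * n + b i.succ)) := by
      intro n
      unfold ps
      have e1 : ∀ i, A * n + x i = B i * (a i * n + b i) := by
        intro i
        simp only [hx]
        rw [← hBA i]
        ring
      have e2 : ind V (A * n) = ind (fun n => n % Q = r % Q) n := ind_at (hVA n)
      have e3 : ∀ i : Fin d, F i (A * n + x i.succ) = g i (a i.succ * n + b i.succ) := by
        intro i
        simp only [hF]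
        rw [e1, if_pos (dvd_mul_right _ _), Nat.mul_div_cancel_left _ (Nat.pos_of_ne_zero (hB0 _))]
      rw [e2, e1 0, hf.mul]
      simp only [e3]
      push_cast
      ring
    have hsum : ∑ m ∈ range (A * (N + 1)), ps f V F x m =
        ps f V F x 0 + ((f (B 0) : ℤ) : ℂ) * SrF f a b g Q r N := by
      rw [sum_multC A (N + 1) hA _ hpsz, sum_range_succ', mul_zero, add_comm]
      congr 1
      unfold SrF
      rw [mul_sum, range_eq_Ico, sum_Ico_add' (fun n => ps f V F x (A * n)) 0 N 1]
      apply sum_congr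
      · ext n
        simp only [mem_Ico, mem_Icc]
        omega
      · intro n _
        exact hpsn n
    have hps0 : ‖ps f V F x 0‖ ≤ 1 := by
      unfold ps
      rw [norm_mul, norm_mul]
      have h1 := norm_ind_le V 0
      have h2 := norm_f_le f (cm_abs hf) (0 + x 0)
      have h3 := norm_prod_F F hF1 (fun i => 0 + x i.succ)
      calc ‖(ind V 0 : ℂ)‖ * ‖((f (0 + x 0) : ℤ) : ℂ)‖ * ‖∏ i : Fin d, F i (0 + x i.succ)‖ ≤
          1 * 1 * 1 := by gcongr
        _ = 1 := by norm_num
    unfold AvC
    rw [hsum, norm_div, hdvV, lt_div_iff₀ (by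
      rw [Complex.norm_natCast]
      have : 0 < A * (N + 1) := Nat.mul_pos (by omega) (by omega)
      exact_mod_cast this), Complex.norm_natCast]
    have h3 : ‖SrF f a b g Q r N‖ - 1 ≤ ‖ps f V F x 0 + ((f (B 0) : ℤ) : ℂ) * SrF f a b g Q r N‖ := by
      have h4 := norm_sub_norm_le (((f (B 0) : ℤ) : ℂ) * SrF f a b g Q r N) (-ps f V F x 0)
      rw [norm_neg, sub_neg_eq_add, add_comm (((f (B 0) : ℤ) : ℂ) * SrF f a b g Q r N), norm_mul,
        cm_norm hf (hB0 0), one_mul] at h4
      linarith
    have e5 : (1 - c) * (1 / ((A' : ℕ) : ℝ)) * ((A * (N + 1) : ℕ) : ℝ) = (1 - c) * ((N + 1) / Q) := by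
      rw [hA'd]
      push_cast
      field_simp
    rw [e5]
    have e6 : (1 - c / 2) * ((N : ℝ) / Q) = (1 - c) * ((N + 1) / Q) + (c / 2 * N - (1 - c)) / Q := by
      field_simp
      ring
    have e7 : 1 ≤ (c / 2 * N - (1 - c)) / Q := by
      rw [le_div_iff₀ hQ0]
      have : (1 : ℝ) ≤ Q := by exact_mod_cast hQ
      nlinarith
    rw [e6] at hN
    linarith

end Pool.Agent.R512.G
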