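import Pool.Agent.R512.G.Forms
import Pool.Agent.Y681.E.Apx2

/-!
Library R512.G (helper512): one factor near a completely multiplicative function with values `±1`, twists
and final statement for fixed functions.
-/

set_option autoImplicit false

namespace Pool.Agent.R512.G

open Finset Filter Topology
open Pool.Agent.Y872.L (CM NonPret cm_abs)
open Pool.Agent.Y958.U
open Pool.Agent.Y958.E
open Pool.Agent.Y958.TC (ind)

theorem forms2 (hT : S_TKL) (d : ℕ) : ∃ c : ℝ, 0 < c ∧ c < 1 ∧ ∀ f : ℕ → ℤ, CM f → NonPret f →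
    ∀ (a b : Fin (d + 1) → ℕ), (∀ i, 1 ≤ a i) →
    (∀ i j, i ≠ j → a i * b j ≠ a j * b i) → ∀ g : Fin (d + 1) → ℕ → ℂ, (∀ i, BM (g i)) →
    ∀ j, AP (fun n => ((f n : ℤ) : ℂ) * g j n) → ∀ ε : ℝ, 0 < ε →
      LZ {N : ℕ | (1 - c) * ∑ n ∈ Icc 1 N, ‖g j (a j * n + b j)‖ + ε * N < ‖∑ n ∈ Icc 1 N, Cs a b g n‖} := by
  classical
  obtain ⟨c, hc0, hc1, hF⟩ := forms0 hT d
  refine ⟨c, hc0, hc1, fun f hf hnp a b ha hab g hg j hj ε hε => ?_⟩
  set D : ℝ := (a j : ℝ) + b j + 1 with hD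
  have hD0 : 0 < D := by positivity
  obtain ⟨Q, w₀, hQ, hw₀1, hw₀Q, N₀, hN₀⟩ := hj (ε / (4 * D)) (by positivity)
  have hQ0 : (0 : ℝ) < Q := by exact_mod_cast hQ
  set a' : Fin (d + 1) → ℕ := Fin.cons (a j) (fun i => a (j.succAbove i)) with ha'
  set b' : Fin (d + 1) → ℕ := Fin.cons (b j) (fun i => b (j.succAbove i)) with hb'
  have ea0 : a' 0 = a j := rfl
  have eb0 : b' 0 = b j := rfl
  have eas : ∀ i : Fin d, a' i.succ = a (j.succAbove i) := fun i => rfl
  have ebs : ∀ i : Fin d, b' i.succ = b (j.succAbove i) := fun i => rfl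
  have ha'1 : ∀ i, 1 ≤ a' i := by
    intro i
    refine Fin.cases ?_ (fun i => ?_) i
    · exact ha j
    · exact ha _
  have hab' : ∀ i l, i ≠ l → a' i * b' l ≠ a' l * b' i := by
    intro i l
    refine Fin.cases ?_ (fun i => ?_) i
    · refine Fin.cases ?_ (fun l => ?_) l
      · intro h; exact absurd rfl h
      · intro _
        rw [ea0, eb0, eas, ebs]
        exact hab _ _ (Fin.succAbove_ne j l).symm
    · refine Fin.cases ?_ (fun l => ?_) l
      · intro _
        rw [ea0, eb0, eas, ebs]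
        exact hab _ _ (Fin.succAbove_ne j i)
      · intro h
        rw [eas, ebs, eas, ebs]
        apply hab
        intro hh
        exact h (congrArg Fin.succ (Fin.succAbove_right_injective hh))
  have hEr : ∀ r ∈ range Q, LZ {N : ℕ | (1 - c) * ((N : ℝ) / Q) < ‖SrF f a' b' (fun i => g (j.succAbove i)) Q r N‖} :=
    fun r _ => hF f hf hnp a' b' ha'1 hab' (fun i => g (j.succAbove i)) (fun i => hg _) Q r hQ
  have hLZ := LZ_fin (range Q) (fun r => {N : ℕ | (1 - c) * ((N : ℝ) / Q) <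
    ‖SrF f a' b' (fun i => g (j.succAbove i)) Q r N‖}) hEr
  set N₁ : ℕ := N₀ + ⌈8 * Q / ε⌉₊ + 1 with hN₁
  refine LZ_sub ?_ (LZ_union hLZ (LZ_bdd {N | N < N₁} N₁ fun n hn => hn))
  intro N hN
  by_cases hNK : N < N₁
  · exact Or.inr hNK
  left
  rw [Set.mem_setOf_eq] at hN ⊢
  by_contra hcon
  push Not at hcon
  apply absurd hN
  push Not
  have hN0 : (1 : ℝ) ≤ N := by exact_mod_cast (by omega : 1 ≤ N)
  have hNa : N ≤ a j * N := Nat.le_mul_of_pos_left _ (ha j)
  obtain ⟨u, hu, hsum⟩ := hN₀ (a j * N + b j + 1) (by omega)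
  set w : ℕ → ℂ := fun m => u * w₀ m with hw
  have hw1 : ∀ n, ‖w n‖ ≤ 1 := by
    intro n
    simp only [hw]
    rw [norm_mul, hu, one_mul]
    exact hw₀1 n
  have hwQ : ∀ n, w (n + Q) = w n := by
    intro n
    simp only [hw]
    rw [hw₀Q]
  set Wm : ℝ := ∑ r ∈ range Q, ‖w (a j * r + b j)‖ with hWm
  have hWm1 : Wm ≤ Q := by
    rw [hWm]
    refine (sum_le_sum fun r _ => hw1 _).trans (le_of_eq ?_)
    simp
  have hWm0 : 0 ≤ Wm := sum_nonneg fun r _ => norm_nonneg _
  -- the error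
  have herr : ∑ n ∈ Icc 1 N, ‖((f (a j * n + b j) : ℤ) : ℂ) * g j (a j * n + b j) - w (a j * n + b j)‖ ≤
      ε / 4 * N := by
    refine (sum_prog (fun m => ‖((f m : ℤ) : ℂ) * g j m - w m‖) (fun m => norm_nonneg _) (a j) (b j) N
      (ha j)).trans ?_
    refine hsum.trans ?_
    have h2 : ((a j * N + b j + 1 : ℕ) : ℝ) ≤ D * N := by
      push_cast
      rw [hD]
      have : (0 : ℝ) ≤ b j := Nat.cast_nonneg _
      nlinarith
    calc ε / (4 * D) * ((a j * N + b j + 1 : ℕ) : ℝ) ≤ ε / (4 * D) * (D * N) :=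
          mul_le_mul_of_nonneg_left h2 (by positivity)
      _ = ε / 4 * N := by field_simp
  -- decomposition
  have hdec : ∑ n ∈ Icc 1 N, Cs a b g n =
      ∑ r ∈ range Q, w (a j * r + b j) * SrF f a' b' (fun i => g (j.succAbove i)) Q r N +
      ∑ n ∈ Icc 1 N, (((f (a j * n + b j) : ℤ) : ℂ) * g j (a j * n + b j) - w (a j * n + b j)) *
        (((f (a j * n + b j) : ℤ) : ℂ) * ∏ i : Fin d, g (j.succAbove i) (a (j.succAbove i) * n + b (j.succAbove i))) := by
    have h1 : ∑ r ∈ range Q, w (a j * r + b j) * SrF f a' b' (fun i => g (j.succAbove i)) Q r N =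
        ∑ n ∈ Icc 1 N, w (a j * n + b j) *
        (((f (a j * n + b j) : ℤ) : ℂ) * ∏ i : Fin d, g (j.succAbove i) (a (j.succAbove i) * n + b (j.succAbove i))) := by
      unfold SrF
      simp only [mul_sum]
      rw [sum_comm]
      apply sum_congr rfl
      intro n _
      rw [sum_eq_single (n % Q)]
      · have e1 : ind (fun m => m % Q = n % Q % Q) n = 1 := by
          unfold Pool.Agent.Y958.TC.ind
          rw [if_pos (Nat.mod_mod _ _).symm]
        rw [e1]
        have e2 : w (a j * (n % Q) + b j) = w (a j * n + b j) := by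
          rw [per_modC hwQ (a j * (n % Q) + b j), per_modC hwQ (a j * n + b j)]
          congr 1
          have : a j * (n % Q) + b j ≡ a j * n + b j [MOD Q] :=
            Nat.ModEq.add_right _ (Nat.ModEq.mul_left _ (Nat.mod_modEq n Q))
          exact this
        rw [e2]
        simp only [ea0, eb0, eas, ebs]
        push_cast
        ring
      · intro r hr hne
        have e1 : ind (fun m => m % Q = r % Q) n = 0 := by
          unfold Pool.Agent.Y958.TC.ind
          rw [if_neg]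
          intro h
          rw [Nat.mod_eq_of_lt (mem_range.1 hr)] at h
          exact hne h.symm
        rw [e1]
        simp
      · intro h
        exact absurd (mem_range.2 (Nat.mod_lt _ (by omega))) h
    rw [h1, ← sum_add_distrib]
    apply sum_congr rfl
    intro n hn
    rw [mem_Icc] at hn
    unfold Cs
    rw [Fin.prod_univ_succAbove _ j]
    have h2 := cm_sqC hf (show a j * n + b j ≠ 0 by
      have : 1 ≤ a j * n := Nat.one_le_iff_ne_zero.2 (Nat.mul_ne_zero (by have := ha j; omega) (by omega))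
      omega)
    linear_combination (-(g j (a j * n + b j)) * ∏ i : Fin d, g (j.succAbove i) (a (j.succAbove i) * n + b (j.succAbove i))) * h2
  rw [hdec]
  refine (norm_add_le _ _).trans ?_
  have h1 : ‖∑ r ∈ range Q, w (a j * r + b j) * SrF f a' b' (fun i => g (j.succAbove i)) Q r N‖ ≤
      (1 - c) * ((N : ℝ) / Q) * Wm := by
    refine (norm_sum_le _ _).trans ?_
    rw [hWm, mul_sum]
    apply sum_le_sum
    intro r hr
    rw [norm_mul, mul_comm]
    exact mul_le_mul_of_nonneg_right (not_lt.1 (hcon r hr)) (norm_nonneg _)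
  have h2 : ‖∑ n ∈ Icc 1 N, (((f (a j * n + b j) : ℤ) : ℂ) * g j (a j * n + b j) - w (a j * n + b j)) *
        (((f (a j * n + b j) : ℤ) : ℂ) * ∏ i : Fin d, g (j.succAbove i) (a (j.succAbove i) * n + b (j.succAbove i)))‖ ≤
      ε / 4 * N := by
    refine (norm_sum_le _ _).trans (le_trans (sum_le_sum fun n _ => ?_) herr)
    rw [norm_mul, norm_mul, norm_prod]
    have h5 : ∏ i : Fin d, ‖g (j.succAbove i) (a (j.succAbove i) * n + b (j.succAbove i))‖ ≤ 1 :=
      prod_le_one (fun _ _ => norm_nonneg _) fun i _ => (hg _).1 _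
    have h6 : ‖((f (a j * n + b j) : ℤ) : ℂ)‖ *
        ∏ i : Fin d, ‖g (j.succAbove i) (a (j.succAbove i) * n + b (j.succAbove i))‖ ≤ 1 := by
      calc _ ≤ (1 : ℝ) * 1 := mul_le_mul (cm_le hf _) h5 (prod_nonneg fun _ _ => norm_nonneg _) zero_le_one
        _ = 1 := one_mul 1
    exact mul_le_of_le_one_right (norm_nonneg _) h6
  -- lower bound for the sum of `‖g j‖`
  have h3 : (N : ℝ) / Q * Wm - Q - ε / 4 * N ≤ ∑ n ∈ Icc 1 N, ‖g j (a j * n + b j)‖ := by
    have h4 : ∑ n ∈ Icc 1 N, ‖w (a j * n + b j)‖ - ε / 4 * N ≤ ∑ n ∈ Icc 1 N, ‖g j (a j * n + b j)‖ := by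
      have h5 : ∑ n ∈ Icc 1 N, ‖w (a j * n + b j)‖ ≤ ∑ n ∈ Icc 1 N, (‖g j (a j * n + b j)‖ +
          ‖((f (a j * n + b j) : ℤ) : ℂ) * g j (a j * n + b j) - w (a j * n + b j)‖) := by
        apply sum_le_sum
        intro n hn
        rw [mem_Icc] at hn
        have h6 := norm_sub_norm_le (w (a j * n + b j)) (((f (a j * n + b j) : ℤ) : ℂ) * g j (a j * n + b j))
        have h7 : ‖((f (a j * n + b j) : ℤ) : ℂ) * g j (a j * n + b j)‖ = ‖g j (a j * n + b j)‖ := by
          rw [norm_mul, cm_norm hf (show a j * n + b j ≠ 0 by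
            have : 1 ≤ a j * n := Nat.one_le_iff_ne_zero.2 (Nat.mul_ne_zero (by have := ha j; omega) (by omega))
            omega), one_mul]
        rw [h7, norm_sub_rev] at h6
        linarith
      rw [sum_add_distrib] at h5
      linarith
    have h5 : (N : ℝ) / Q * Wm - Q ≤ ∑ n ∈ Icc 1 N, ‖w (a j * n + b j)‖ := by
      -- full periods
      have hper : ∀ n, ‖w (a j * (n + Q) + b j)‖ = ‖w (a j * n + b j)‖ := by
        intro n
        congr 1
        rw [per_modC hwQ (a j * (n + Q) + b j), per_modC hwQ (a j * n + b j)]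
        congr 1
        rw [show a j * (n + Q) + b j = a j * n + b j + Q * a j by ring, Nat.add_mul_mod_self_left]
      have hfull : ∀ K : ℕ, ∑ n ∈ range (Q * K), ‖w (a j * n + b j)‖ = K * Wm := by
        intro K
        induction K with
        | zero => simp
        | succ K ih =>
          rw [mul_add, mul_one, sum_range_add, ih]
          have hper2 : ∀ k n, ‖w (a j * (Q * k + n) + b j)‖ = ‖w (a j * n + b j)‖ := by
            intro k
            induction k with
            | zero => intro n; simp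
            | succ k ih2 =>
              intro n
              rw [← ih2 n, ← hper (Q * k + n)]
              congr 3
              ring
          have : ∑ x ∈ range Q, ‖w (a j * (Q * K + x) + b j)‖ = Wm := by
            rw [hWm]
            exact sum_congr rfl fun n _ => hper2 K n
          rw [this]
          push_cast
          ring
      -- use `range (Q * K)` with the term `0` removed by periodicity
      have h13 : ∑ n ∈ range (Q * (N / Q)), ‖w (a j * n + b j)‖ ≤ ∑ n ∈ Icc 1 N, ‖w (a j * n + b j)‖ := by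
        have h14 : ∑ n ∈ range (Q * (N / Q)), ‖w (a j * (n + 1) + b j)‖ =
            ∑ n ∈ range (Q * (N / Q)), ‖w (a j * n + b j)‖ := by
          have h15 := sum_range_succ (fun n => ‖w (a j * n + b j)‖) (Q * (N / Q))
          have h16 := sum_range_succ' (fun n => ‖w (a j * n + b j)‖) (Q * (N / Q))
          have h17 : ‖w (a j * (Q * (N / Q)) + b j)‖ = ‖w (a j * 0 + b j)‖ := by
            have hper3 : ∀ k, ‖w (a j * (Q * k) + b j)‖ = ‖w (a j * 0 + b j)‖ := by
              intro k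
              induction k with
              | zero => simp
              | succ k ih2 =>
                rw [← ih2, ← hper (Q * k)]
                congr 3
            exact hper3 _
          linarith
        rw [← h14, range_eq_Ico, sum_Ico_add' (fun n => ‖w (a j * n + b j)‖) 0 (Q * (N / Q)) 1]
        apply sum_le_sum_of_subset_of_nonneg
        · intro n hn
          rw [mem_Ico] at hn
          rw [mem_Icc]
          have := Nat.mul_div_le N Q
          omega
        · intro _ _ _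
          exact norm_nonneg _
      rw [hfull] at h13
      have h8 : (N : ℝ) / Q ≤ ((N / Q : ℕ) : ℝ) + 1 := by
        have h9 := Nat.lt_div_mul_add (a := N) (b := Q) hQ
        have h10 : (N : ℝ) < ((N / Q : ℕ) : ℝ) * Q + Q := by exact_mod_cast h9
        rw [div_le_iff₀ hQ0]
        linarith
      have h9 : (N : ℝ) / Q * Wm ≤ (((N / Q : ℕ) : ℝ) + 1) * Wm := mul_le_mul_of_nonneg_right h8 hWm0
      linarith
    linarith
  have h4 : (8 : ℝ) * Q / ε ≤ N := (Nat.le_ceil _).trans (by exact_mod_cast (by omega : ⌈8 * (Q : ℝ) / ε⌉₊ ≤ N))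
  rw [div_le_iff₀ hε] at h4
  have h5 : (1 - c) * ((N : ℝ) / Q * Wm - Q - ε / 4 * N) ≤ (1 - c) * ∑ n ∈ Icc 1 N, ‖g j (a j * n + b j)‖ :=
    mul_le_mul_of_nonneg_left h3 (by linarith)
  have h6 : (1 - c) * (Q + ε / 4 * N) ≤ Q + ε / 4 * N := by
    have : 0 ≤ (Q : ℝ) + ε / 4 * N := by positivity
    nlinarith
  nlinarith

/-- **one factor near `f n ^ (i t)`** -/
theorem forms3 (hT : S_TKL) (d : ℕ) : ∃ c : ℝ, 0 < c ∧ c < 1 ∧ ∀ f : ℕ → ℤ, CM f → NonPret f →
    ∀ (a b : Fin (d + 1) → ℕ), (∀ i, 1 ≤ a i) →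
    (∀ i j, i ≠ j → a i * b j ≠ a j * b i) → ∀ g : Fin (d + 1) → ℕ → ℂ, (∀ i, BM (g i)) →
    ∀ (j : Fin (d + 1)) (t : ℝ), AP (fun n => ((f n : ℤ) : ℂ) * (g j n * (starRingEnd ℂ) (nit t n))) →
      ∀ ε : ℝ, 0 < ε →
      LZ {N : ℕ | (1 - c) * ∑ n ∈ Icc 1 N, ‖g j (a j * n + b j)‖ + ε * N < ‖∑ n ∈ Icc 1 N, Cs a b g n‖} := by
  classical
  obtain ⟨c, hc0, hc1, hF⟩ := forms2 hT (d + 1)
  refine ⟨c, hc0, hc1, fun f hf hnp a b ha hab g hg j t hj ε hε => ?_⟩
  set e : ℕ := 1 + ∑ i, a j * b i with he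
  set a' : Fin (d + 1 + 1) → ℕ := Fin.cons (a j) a with ha'
  set b' : Fin (d + 1 + 1) → ℕ := Fin.cons (b j + e) b with hb'
  set g' : Fin (d + 1 + 1) → ℕ → ℂ := Fin.cons (nit t)
    (fun i => if i = j then fun n => g j n * (starRingEnd ℂ) (nit t n) else g i) with hg'
  have hebi : ∀ i, a j * b i < e := by
    intro i
    have := single_le_sum (f := fun i => a j * b i) (fun _ _ => Nat.zero_le _) (mem_univ i)
    omega
  have ha'1 : ∀ i, 1 ≤ a' i := by
    intro i
    refine Fin.cases ?_ (fun i => ?_) i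
    · exact ha j
    · exact ha i
  have hkey : ∀ i, a j * b i ≠ a i * (b j + e) := by
    intro i h
    have h1 := hebi i
    have h2 : b j + e ≤ a i * (b j + e) := Nat.le_mul_of_pos_left _ (ha i)
    omega
  have hab' : ∀ i l, i ≠ l → a' i * b' l ≠ a' l * b' i := by
    intro i l
    refine Fin.cases ?_ (fun i => ?_) i
    · refine Fin.cases ?_ (fun l => ?_) l
      · intro h; exact absurd rfl h
      · intro _
        exact hkey l
    · refine Fin.cases ?_ (fun l => ?_) l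
      · intro _
        exact fun h => hkey i h.symm
      · intro h
        exact hab i l (fun hh => h (congrArg Fin.succ hh))
  have hg'1 : ∀ i, BM (g' i) := by
    intro i
    refine Fin.cases ?_ (fun i => ?_) i
    · exact ⟨fun n => (nit_norm t n).le, fun m n hm hn _ => nit_mul t hm hn⟩
    · show BM (if i = j then fun n => g j n * (starRingEnd ℂ) (nit t n) else g i)
      split_ifs with hij
      · refine ⟨fun n => ?_, fun m n hm hn hmn => ?_⟩
        · rw [norm_mul, RCLike.norm_conj, nit_norm, mul_one]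
          exact (hg j).1 n
        · show g j (m * n) * (starRingEnd ℂ) (nit t (m * n)) = g j m * (starRingEnd ℂ) (nit t m) *
            (g j n * (starRingEnd ℂ) (nit t n))
          rw [(hg j).2 m n hm hn hmn, nit_mul t hm hn, map_mul]
          ring
      · exact hg i
  have hgj' : g' j.succ = fun n => g j n * (starRingEnd ℂ) (nit t n) := by
    show (if j = j then fun n => g j n * (starRingEnd ℂ) (nit t n) else g j) = _
    rw [if_pos rfl]
  have hj' : AP (fun n => ((f n : ℤ) : ℂ) * g' j.succ n) := by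
    rw [hgj']
    exact hj
  have h1 := hF f hf hnp a' b' ha'1 hab' g' hg'1 j.succ hj' (ε / 2) (by positivity)
  -- comparison of the sums
  have hCs : ∀ n : ℕ, Cs a' b' g' n = (nit t (a j * n + b j + e) * (starRingEnd ℂ) (nit t (a j * n + b j))) *
      Cs a b g n := by
    intro n
    unfold Cs
    rw [Fin.prod_univ_succ]
    have e1 : g' 0 (a' 0 * n + b' 0) = nit t (a j * n + b j + e) := by
      show nit t (a j * n + (b j + e)) = _
      rw [← add_assoc]
    have e2 : ∏ i : Fin (d + 1), g' i.succ (a' i.succ * n + b' i.succ) =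
        (starRingEnd ℂ) (nit t (a j * n + b j)) * ∏ i, g i (a i * n + b i) := by
      rw [← mul_prod_erase univ _ (mem_univ j), ← mul_prod_erase univ (fun i => g i (a i * n + b i)) (mem_univ j),
        hgj']
      have e3 : ∏ i ∈ univ.erase j, g' i.succ (a' i.succ * n + b' i.succ) =
          ∏ i ∈ univ.erase j, g i (a i * n + b i) := by
        apply prod_congr rfl
        intro i hi
        rw [mem_erase] at hi
        show (if i = j then fun n => g j n * (starRingEnd ℂ) (nit t n) else g i) (a i * n + b i) = _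
        rw [if_neg hi.1]
      rw [e3]
      show g j (a j * n + b j) * (starRingEnd ℂ) (nit t (a j * n + b j)) * _ = _
      ring
    rw [e1, e2]
    ring
  have hCs1 : ∀ n, ‖Cs a b g n‖ ≤ 1 := by
    intro n
    unfold Cs
    rw [norm_prod]
    exact prod_le_one (fun _ _ => norm_nonneg _) fun i _ => (hg i).1 _
  have hdiff : ∀ N : ℕ, ‖∑ n ∈ Icc 1 N, Cs a b g n‖ ≤ ‖∑ n ∈ Icc 1 N, Cs a' b' g' n‖ +
      |t| * e * (1 + Real.log N) := by
    intro N
    have h2 : ∑ n ∈ Icc 1 N, Cs a b g n = ∑ n ∈ Icc 1 N, Cs a' b' g' n -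
        ∑ n ∈ Icc 1 N, (nit t (a j * n + b j + e) * (starRingEnd ℂ) (nit t (a j * n + b j)) - 1) * Cs a b g n := by
      rw [← sum_sub_distrib]
      apply sum_congr rfl
      intro n _
      rw [hCs]
      ring
    rw [h2]
    refine (norm_sub_le _ _).trans (add_le_add le_rfl ?_)
    refine (norm_sum_le _ _).trans ?_
    have h3 : ∀ n ∈ Icc 1 N, ‖(nit t (a j * n + b j + e) * (starRingEnd ℂ) (nit t (a j * n + b j)) - 1) *
        Cs a b g n‖ ≤ |t| * e * (1 / n) := by
      intro n hn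
      rw [mem_Icc] at hn
      have hn0 : (0 : ℝ) < n := by exact_mod_cast (by omega : 0 < n)
      have h5 : n ≤ a j * n := Nat.le_mul_of_pos_left _ (ha j)
      have h4 := nit_near t (a j * n + b j) e (by omega)
      rw [norm_mul]
      have h6 : (e : ℝ) / ((a j * n + b j : ℕ) : ℝ) ≤ e / n := by
        apply div_le_div_of_nonneg_left (Nat.cast_nonneg _) hn0
        exact_mod_cast (by omega : n ≤ a j * n + b j)
      calc _ ≤ (|t| * (e / ((a j * n + b j : ℕ) : ℝ))) * 1 :=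
            mul_le_mul h4 (hCs1 n) (norm_nonneg _) (by positivity)
        _ ≤ (|t| * (e / n)) * 1 := by gcongr
        _ = |t| * e * (1 / n) := by ring
    refine (sum_le_sum h3).trans ?_
    rw [← mul_sum]
    apply mul_le_mul_of_nonneg_left _ (by positivity)
    have h8 := harmonic_le_one_add_log N
    have h9 : ∑ i ∈ Icc 1 N, (1 : ℝ) / i = ((harmonic N : ℚ) : ℝ) := by
      rw [harmonic_eq_sum_Icc]
      push_cast
      apply sum_congr rfl
      intro i _
      rw [one_div]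
    rw [h9]
    exact h8
  have hev : ∀ᶠ N : ℕ in atTop, |t| * e * (1 + Real.log N) ≤ ε / 2 * N := by
    have h2 : Tendsto (fun N : ℕ => (1 + Real.log N) / (N : ℝ)) atTop (𝓝 0) := by
      have h3 : Tendsto (fun N : ℕ => 1 / (N : ℝ)) atTop (𝓝 0) := tendsto_one_div_atTop_nhds_zero_nat
      have h4 : Tendsto (fun N : ℕ => Real.log N / (N : ℝ)) atTop (𝓝 0) :=
        (Real.isLittleO_log_id_atTop.tendsto_div_nhds_zero).comp tendsto_natCast_atTop_atTop
      have h5 := h3.add h4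
      rw [add_zero] at h5
      refine h5.congr fun N => ?_
      ring
    have h3 := h2.const_mul (|t| * e)
    rw [mul_zero] at h3
    filter_upwards [h3.eventually_lt_const (show (0 : ℝ) < ε / 2 by positivity), eventually_ge_atTop 1] with N hN hN1
    have hN0 : (0 : ℝ) < N := by exact_mod_cast (by omega : 0 < N)
    have h6 := mul_le_mul_of_nonneg_right hN.le hN0.le
    refine le_trans (le_of_eq ?_) h6
    field_simp
  obtain ⟨N₁, hN₁⟩ := eventually_atTop.1 hev
  refine LZ_sub ?_ (LZ_union h1 (LZ_bdd {N | N < N₁} N₁ fun n hn => hn))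
  intro N hN
  by_cases hNK : N < N₁
  · exact Or.inr hNK
  left
  rw [Set.mem_setOf_eq] at hN ⊢
  have h2 := hdiff N
  have h3 := hN₁ N (not_lt.1 hNK)
  have h4 : ∑ n ∈ Icc 1 N, ‖g' j.succ (a' j.succ * n + b' j.succ)‖ = ∑ n ∈ Icc 1 N, ‖g j (a j * n + b j)‖ := by
    apply sum_congr rfl
    intro n _
    rw [hgj']
    show ‖g j (a j * n + b j) * (starRingEnd ℂ) (nit t (a j * n + b j))‖ = _
    rw [norm_mul, RCLike.norm_conj, nit_norm, mul_one]
  rw [h4]
  linarith

/-- finite pretentious distance from `f χ n ^ (i t)` for some Dirichlet character `χ` and real `t` -/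
def PretF (f : ℕ → ℤ) (g : ℕ → ℂ) : Prop := ∃ (q : ℕ) (χ : DirichletCharacter ℂ q) (t : ℝ), 1 ≤ q ∧
  Summable (fun p : Nat.Primes => (1 - (g p * (starRingEnd ℂ) (((f p : ℤ) : ℂ) *
    χ ((p : ℕ) : ZMod q) * nit t p)).re) / ((p : ℕ) : ℝ))

lemma bm_cm {f : ℕ → ℤ} (hf : CM f) {g : ℕ → ℂ} (hg : BM g) : BM (fun n => ((f n : ℤ) : ℂ) * g n) := by
  refine ⟨fun n => ?_, fun m n hm hn hmn => ?_⟩
  · rw [norm_mul]
    calc ‖((f n : ℤ) : ℂ)‖ * ‖g n‖ ≤ 1 * 1 := mul_le_mul (cm_le hf n) (hg.1 n) (norm_nonneg _) zero_le_one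
      _ = 1 := one_mul 1
  · show ((f (m * n) : ℤ) : ℂ) * g (m * n) = ((f m : ℤ) : ℂ) * g m * (((f n : ℤ) : ℂ) * g n)
    rw [hg.2 m n hm hn hmn, hf.mul]
    push_cast
    ring

lemma ap_of (hA : S_APX2) {f : ℕ → ℤ} (hf : CM f) {g : ℕ → ℂ} (hg : BM g) (h : PretF f g) :
    ∃ t : ℝ, AP (fun n => ((f n : ℤ) : ℂ) * (g n * (starRingEnd ℂ) (nit t n))) := by
  obtain ⟨q, χ, t, hq, hs⟩ := h
  refine ⟨t, hA q hq χ _ (bm_cm hf (bm_tw hg t)) ?_⟩
  refine hs.congr fun p => ?_
  congr 3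
  rw [map_mul, map_mul, map_intCast]
  ring

/-- **final statement** -/
theorem finG : ∃ c : ℕ → ℝ, (∀ k, 0 < c k) ∧ (∀ k, c k < 1) ∧ ∀ (k : ℕ) (a b : Fin k → ℕ), (∀ i, 1 ≤ a i) →
    (∀ i j, i ≠ j → a i * b j ≠ a j * b i) → ∀ g : Fin k → ℕ → ℂ, (∀ i, BM (g i)) →
    ∀ j, ∀ f : ℕ → ℤ, CM f → NonPret f → PretF f (g j) →
    ∃ 𝓔 : Set ℕ, LZ 𝓔 ∧ ∀ ε : ℝ, 0 < ε → ∃ N₀ : ℕ, ∀ N : ℕ, N₀ ≤ N →
      (N ∉ 𝓔 → ‖∑ n ∈ Icc 1 N, ∏ i, g i (a i * n + b i)‖ ≤
        (1 - c k) * ∑ n ∈ Icc 1 N, ‖g j (a j * n + b j)‖ + ε * N) ∧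
      ‖∑ n ∈ Icc 1 N, (∏ i, g i (a i * n + b i)) / n‖ ≤
        (1 - c k) * ∑ n ∈ Icc 1 N, ‖g j (a j * n + b j)‖ / n + ε * Real.log N := by
  classical
  choose c hc0 hc1 hF using forms3 Pool.Agent.Y220.EL.tkl
  refine ⟨fun k => c (k - 1), fun k => hc0 _, fun k => hc1 _, fun k a b ha hab g hg j f hf hnp hj => ?_⟩
  obtain ⟨d, rfl⟩ : ∃ d, k = d + 1 := ⟨k - 1, by have := j.pos; omega⟩
  simp only [Nat.add_sub_cancel]
  obtain ⟨t, ht⟩ := ap_of Pool.Agent.Y681.E.Apx2.apx2 hf (hg j) hj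
  have h1 := hF d f hf hnp a b ha hab g hg j t ht
  set E : ℕ → Set ℕ := fun m => {N : ℕ | (1 - c d) * ∑ n ∈ Icc 1 N, ‖g j (a j * n + b j)‖ +
    (1 / ((m : ℝ) + 1)) * N < ‖∑ n ∈ Icc 1 N, Cs a b g n‖} with hE
  obtain ⟨𝓔, h𝓔, hdiag⟩ := diag' E fun m => h1 (1 / ((m : ℝ) + 1)) (by positivity)
  refine ⟨𝓔, h𝓔, fun ε hε => ?_⟩
  obtain ⟨m, hm⟩ := exists_nat_one_div_lt hε
  obtain ⟨N₀, hN₀⟩ := hdiag m
  have hCs1 : ∀ n, ‖Cs a b g n‖ ≤ 1 := by
    intro n
    unfold Cs
    rw [norm_prod]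
    exact prod_le_one (fun _ _ => norm_nonneg _) fun i _ => (hg i).1 _
  obtain ⟨X₀, hX₀⟩ := logC (Cs a b g) (fun n => ‖g j (a j * n + b j)‖) hCs1 (fun n => norm_nonneg _)
    (c d) (ε / 4) (hc1 d) (by positivity) (h1 (ε / 4) (by positivity))
  refine ⟨N₀ + X₀, fun N hN => ⟨fun hNE => ?_, ?_⟩⟩
  · by_contra hcon
    apply hNE
    apply hN₀ N _ (by omega)
    show (1 - c d) * ∑ n ∈ Icc 1 N, ‖g j (a j * n + b j)‖ + (1 / ((m : ℝ) + 1)) * N < ‖∑ n ∈ Icc 1 N, Cs a b g n‖
    have h2 := not_le.1 hcon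
    refine lt_of_le_of_lt ?_ h2
    have : (1 / ((m : ℝ) + 1)) * N ≤ ε * N := mul_le_mul_of_nonneg_right hm.le (Nat.cast_nonneg _)
    linarith
  · have h2 := hX₀ N (by omega)
    have e : 4 * (ε / 4) = ε := by ring
    rw [e] at h2
    exact h2

end Pool.Agent.R512.G
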