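import Pool.Agent.TH823.MRS.Expo

/-!
Library R512.G (helper512): exponential sums of functions with `f (p m) = u p * f m`; minor arcs.
-/

set_option autoImplicit false

namespace Pool.Agent.R512.G

open Finset Pool.Agent.H376R2.MR
open Pool.Agent.H807R2.Dav (ee norm_ee ee_add ee_int ee_pow ee_zero)
open Pool.Agent.TH823.MRS

/-- the bilinear sum with coefficients -/
lemma bilin' (W X : ℕ) (H A : ℝ) (hH : 0 < H) (hHX : H ≤ X) (hA : 0 ≤ A) (T : ℕ → ℂ)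
    (hT : ∀ n : ℕ, ‖T n‖ ≤ H) (hT2 : ∀ n m : ℕ, ‖T n - T m‖ ≤ A * |(n : ℝ) - m|)
    (hT3 : ∀ n : ℕ, 3 * X < n → T n = 0) (α : ℝ) (hW : 1 ≤ W)
    (hα : ∀ q : ℕ, 1 ≤ q → q ≤ W → ∀ a : ℤ, (W : ℝ) / H < |α - a / q|) (P : ℕ) (hPW' : P ≤ W)
    (hPW : (P : ℝ) ^ 2 * (1 + 3 * A * P) ≤ W) (hL : 1 ≤ LS P) (c : ℕ → ℂ) (hc : ∀ p, ‖c p‖ ≤ 1) :
    ∑ m ∈ Icc 1 (3 * X), ‖∑ p ∈ PS P, c p * (ee (((p * m : ℕ) : ℝ) * α) * T (p * m))‖ ^ 2 ≤
      H ^ 2 * ((3 * X : ℕ) : ℝ) * (2 * LS P) := by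
  classical
  have hW0 : (0 : ℝ) < W := by exact_mod_cast hW
  have hX0 : (0 : ℝ) < X := by linarith
  obtain ⟨G, hG⟩ : ∃ G : ℕ → ℕ → ℂ, G = fun p m => c p * (ee (((p * m : ℕ) : ℝ) * α) * T (p * m)) := ⟨_, rfl⟩
  have h1 : ((∑ m ∈ Icc 1 (3 * X), ‖∑ p ∈ PS P, G p m‖ ^ 2 : ℝ) : ℂ) =
      ∑ p ∈ PS P, ∑ q ∈ PS P, ∑ m ∈ Icc 1 (3 * X), G p m * (starRingEnd ℂ) (G q m) := by
    rw [sum_congr rfl fun p _ => sum_comm, sum_comm]
    push_cast
    apply sum_congr rfl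
    intro m _
    rw [← Complex.mul_conj', map_sum, sum_mul_sum]
  have h2 : ∑ m ∈ Icc 1 (3 * X), ‖∑ p ∈ PS P, G p m‖ ^ 2 ≤
      ∑ p ∈ PS P, ∑ q ∈ PS P, ‖∑ m ∈ Icc 1 (3 * X), G p m * (starRingEnd ℂ) (G q m)‖ := by
    have e1 : 0 ≤ ∑ m ∈ Icc 1 (3 * X), ‖∑ p ∈ PS P, G p m‖ ^ 2 := sum_nonneg fun _ _ => by positivity
    rw [← Real.norm_of_nonneg e1, ← Complex.norm_real, h1]
    refine (norm_sum_le _ _).trans ?_
    exact sum_le_sum fun p _ => norm_sum_le _ _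
  have h3 : ∀ p ∈ PS P, ∀ q ∈ PS P, ‖∑ m ∈ Icc 1 (3 * X), G p m * (starRingEnd ℂ) (G q m)‖ ≤
      (if p = q then H ^ 2 * (((3 * X : ℕ) : ℝ) / p) else 0) + H ^ 2 * (X * (1 + 3 * A * P)) / (2 * W) := by
    intro p hp q hq
    unfold PS at hp hq
    rw [mem_filter, mem_Icc] at hp hq
    have hp0 : 0 ≤ H ^ 2 * (X * (1 + 3 * A * P)) / (2 * W) := by positivity
    by_cases hpq : p = q
    · rw [if_pos hpq]
      subst hpq
      have e1 : ‖∑ m ∈ Icc 1 (3 * X), G p m * (starRingEnd ℂ) (G p m)‖ ≤ H ^ 2 * (((3 * X : ℕ) : ℝ) / p) := by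
        refine (norm_sum_le _ _).trans ?_
        have e2 : ∀ m ∈ Icc 1 (3 * X), ‖G p m * (starRingEnd ℂ) (G p m)‖ ≤ if p * m ≤ 3 * X then H ^ 2 else 0 := by
          intro m _
          rw [norm_mul, RCLike.norm_conj, hG]
          simp only
          rw [norm_mul, norm_mul, norm_ee, one_mul]
          split_ifs with h
          · rw [sq]
            have e3 : ‖c p‖ * ‖T (p * m)‖ ≤ H := by
              calc ‖c p‖ * ‖T (p * m)‖ ≤ 1 * H := mul_le_mul (hc p) (hT _) (norm_nonneg _) (by norm_num)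
                _ = H := one_mul _
            exact mul_le_mul e3 e3 (by positivity) hH.le
          · rw [hT3 _ (by omega)]
            simp
        refine (sum_le_sum e2).trans ?_
        rw [← sum_filter, sum_const, nsmul_eq_mul, mul_comm]
        exact mul_le_mul_of_nonneg_left (card_mult_le _ p hp.2.pos) (by positivity)
      linarith
    · rw [if_neg hpq, zero_add, hG]
      simp only
      have e4 : ∑ m ∈ Icc 1 (3 * X), c p * (ee (((p * m : ℕ) : ℝ) * α) * T (p * m)) *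
          (starRingEnd ℂ) (c q * (ee (((q * m : ℕ) : ℝ) * α) * T (q * m))) =
          (c p * (starRingEnd ℂ) (c q)) * ∑ m ∈ Icc 1 (3 * X), (ee (((p * m : ℕ) : ℝ) * α) * T (p * m)) *
            (starRingEnd ℂ) (ee (((q * m : ℕ) : ℝ) * α) * T (q * m)) := by
        rw [mul_sum]
        apply sum_congr rfl
        intro m _
        rw [map_mul (starRingEnd ℂ) (c q)]
        ring
      rw [e4, norm_mul]
      have e5 : ‖c p * (starRingEnd ℂ) (c q)‖ ≤ 1 := by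
        rw [norm_mul, RCLike.norm_conj]
        calc ‖c p‖ * ‖c q‖ ≤ 1 * 1 := mul_le_mul (hc p) (hc q) (norm_nonneg _) (by norm_num)
          _ = 1 := one_mul 1
      refine (mul_le_of_le_one_left (norm_nonneg _) e5).trans ?_
      exact off_diag W X H A hH hHX hA T hT hT2 α hW hα P hPW' p q hp.1.2 hq.1.2 hpq
  have h4 := h2.trans (sum_le_sum fun p hp => sum_le_sum fun q hq => h3 p hp q hq)
  rw [hG] at h4
  simp only at h4
  refine h4.trans ?_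
  simp only [sum_add_distrib, sum_ite_eq, sum_const, nsmul_eq_mul]
  have h5 : ∑ p ∈ PS P, (if p ∈ PS P then H ^ 2 * (((3 * X : ℕ) : ℝ) / p) else 0) = H ^ 2 * ((3 * X : ℕ) : ℝ) * LS P := by
    unfold LS
    rw [mul_sum]
    apply sum_congr rfl
    intro p hp
    rw [if_pos hp]
    ring
  rw [h5]
  have h6 : ((PS P).card : ℝ) * (((PS P).card : ℝ) * (H ^ 2 * (X * (1 + 3 * A * P)) / (2 * W))) ≤ H ^ 2 * ((3 * X : ℕ) : ℝ) := by
    have hc := PS_card P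
    have e1 : ((PS P).card : ℝ) * (((PS P).card : ℝ) * (H ^ 2 * (X * (1 + 3 * A * P)) / (2 * W))) ≤
        P * (P * (H ^ 2 * (X * (1 + 3 * A * P)) / (2 * W))) := by
      apply mul_le_mul hc _ (by positivity) (Nat.cast_nonneg _)
      exact mul_le_mul_of_nonneg_right hc (by positivity)
    refine e1.trans ?_
    have e2 : (P : ℝ) * (P * (H ^ 2 * (X * (1 + 3 * A * P)) / (2 * W))) = H ^ 2 * X * ((P : ℝ) ^ 2 * (1 + 3 * A * P)) / (2 * W) := by ring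
    rw [e2, div_le_iff₀ (by positivity)]
    push_cast
    have e3 : 0 ≤ H ^ 2 * X := by positivity
    have e4 := mul_le_mul_of_nonneg_left hPW e3
    nlinarith
  have h7 : 0 ≤ H ^ 2 * ((3 * X : ℕ) : ℝ) := by positivity
  nlinarith

/-- `f (p m) = u p * f m` for the primes `p` not dividing `m` -/
def TwA (u f : ℕ → ℤ) : Prop := ∀ p m : ℕ, p.Prime → ¬ p ∣ m → f (p * m) = u p * f m

/-- minor arcs -/
theorem minor_bound' (u f : ℕ → ℤ) (hu : ∀ n, |u n| ≤ 1) (hb : ∀ n, |f n| ≤ 1) (hf : TwA u f) (W X : ℕ)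
    (H A : ℝ) (hH : 0 < H) (hHX : H ≤ X)
    (hA : 0 ≤ A) (T : ℕ → ℂ) (hT : ∀ n : ℕ, ‖T n‖ ≤ H) (hT2 : ∀ n m : ℕ, ‖T n - T m‖ ≤ A * |(n : ℝ) - m|)
    (hT3 : ∀ n : ℕ, 3 * X < n → T n = 0) (α : ℝ) (hW : 1 ≤ W)
    (hα : ∀ q : ℕ, 1 ≤ q → q ≤ W → ∀ a : ℤ, (W : ℝ) / H < |α - a / q|) (P : ℕ) (hPW' : P ≤ W)
    (hPW : (P : ℝ) ^ 2 * (1 + 3 * A * P) ≤ W) (hL : 1 ≤ LS P) (hXP : 2 * P ≤ 3 * X) :
    ‖∑ n ∈ Icc 1 (3 * X), (f n : ℂ) * ee ((n : ℝ) * α) * T n‖ ≤ 15 * H * X / √(LS P) := by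
  classical
  obtain ⟨N, hN⟩ : ∃ N, N = 3 * X := ⟨_, rfl⟩
  obtain ⟨L, hLd⟩ : ∃ L, L = LS P := ⟨_, rfl⟩
  obtain ⟨F, hF⟩ : ∃ F : ℕ → ℂ, F = fun n => (f n : ℂ) * ee ((n : ℝ) * α) * T n := ⟨_, rfl⟩
  have hL0 : 0 < L := by rw [hLd]; linarith
  have hL1 : 1 ≤ L := by rw [hLd]; exact hL
  have hX0 : (0 : ℝ) < X := by linarith
  have hNr : (N : ℝ) = 3 * X := by rw [hN]; push_cast; ring
  have hN0 : (0 : ℝ) < N := by rw [hNr]; linarith
  have hfc : ∀ n, ‖(f n : ℂ)‖ ≤ 1 := by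
    intro n
    rw [Complex.norm_intCast]
    exact_mod_cast hb n
  have huc : ∀ n, ‖(u n : ℂ)‖ ≤ 1 := by
    intro n
    rw [Complex.norm_intCast]
    exact_mod_cast hu n
  have hFb : ∀ n, ‖F n‖ ≤ H := by
    intro n
    rw [hF]
    simp only
    rw [norm_mul, norm_mul, norm_ee, mul_one]
    calc ‖(f n : ℂ)‖ * ‖T n‖ ≤ 1 * H := mul_le_mul (hfc n) (hT n) (norm_nonneg _) (by norm_num)
      _ = H := one_mul _
  have hF0 : ∀ n, N < n → F n = 0 := by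
    intro n hn
    rw [hF]
    simp only
    rw [hT3 n (by omega), mul_zero]
  obtain ⟨w, hw⟩ : ∃ w : ℕ → ℝ, w = fun n => (((PS P).filter (fun p => p ∣ n)).card : ℝ) := ⟨_, rfl⟩
  -- the error in Turan-Kubilius
  have hTK := turan_kubilius P N
  have hS2 : ‖∑ n ∈ Icc 1 N, ((w n - L : ℝ) : ℂ) * F n‖ ≤ H * (N * √(2 * L)) := by
    have e1 : ‖∑ n ∈ Icc 1 N, ((w n - L : ℝ) : ℂ) * F n‖ ≤ H * ∑ n ∈ Icc 1 N, |w n - L| := by
      refine (norm_sum_le _ _).trans ?_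
      rw [mul_sum]
      apply sum_le_sum
      intro n _
      rw [norm_mul, Complex.norm_real, Real.norm_eq_abs, mul_comm]
      exact mul_le_mul_of_nonneg_right (hFb n) (abs_nonneg _)
    refine e1.trans (mul_le_mul_of_nonneg_left ?_ hH.le)
    apply le_of_sq_le_sq _ (by positivity)
    have e2 := sq_sum_le_card_mul_sum_sq (s := Icc 1 N) (f := fun n => |w n - L|)
    rw [Nat.card_Icc, Nat.add_sub_cancel] at e2
    refine e2.trans ?_
    rw [mul_pow, Real.sq_sqrt (by positivity)]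
    have e3 : ∑ n ∈ Icc 1 N, |w n - L| ^ 2 ≤ N * (2 * L) := by
      have e4 : ∑ n ∈ Icc 1 N, |w n - L| ^ 2 = ∑ n ∈ Icc 1 N, ((((PS P).filter (fun p => p ∣ n)).card : ℝ) - LS P) ^ 2 := by
        apply sum_congr rfl
        intro n _
        rw [sq_abs, hw, hLd]
      rw [e4]
      refine hTK.trans ?_
      rw [← hLd]
      have e5 : 2 * (P : ℝ) ≤ N := by rw [hNr]; exact_mod_cast hXP
      nlinarith
    calc (N : ℝ) * ∑ n ∈ Icc 1 N, |w n - L| ^ 2 ≤ N * (N * (2 * L)) := mul_le_mul_of_nonneg_left e3 hN0.le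
      _ = _ := by ring
  -- the sum with the weight
  have hS1 : ∑ n ∈ Icc 1 N, (w n : ℂ) * F n = ∑ p ∈ PS P, ∑ m ∈ Icc 1 N, F (p * m) := by
    have e1 : ∀ n ∈ Icc 1 N, (w n : ℂ) * F n = ∑ p ∈ PS P, (if p ∣ n then F n else 0) := by
      intro n _
      rw [← sum_filter, sum_const, nsmul_eq_mul, hw]
      push_cast
      rfl
    rw [sum_congr rfl e1, sum_comm]
    apply sum_congr rfl
    intro p hp
    unfold PS at hp
    rw [mem_filter, mem_Icc] at hp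
    exact mult_sum F p N hp.2.pos hF0
  have hS1' : ∑ p ∈ PS P, ∑ m ∈ Icc 1 N, F (p * m) =
      ∑ m ∈ Icc 1 N, (f m : ℂ) * ∑ p ∈ PS P, (u p : ℂ) * (ee (((p * m : ℕ) : ℝ) * α) * T (p * m)) +
      ∑ p ∈ PS P, ∑ m ∈ Icc 1 N, ((f (p * m) - u p * f m : ℤ) : ℂ) * (ee (((p * m : ℕ) : ℝ) * α) * T (p * m)) := by
    have e1 : ∑ m ∈ Icc 1 N, (f m : ℂ) * ∑ p ∈ PS P, (u p : ℂ) * (ee (((p * m : ℕ) : ℝ) * α) * T (p * m)) =
        ∑ p ∈ PS P, ∑ m ∈ Icc 1 N, (f m : ℂ) * ((u p : ℂ) * (ee (((p * m : ℕ) : ℝ) * α) * T (p * m))) := by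
      rw [sum_comm]
      apply sum_congr rfl
      intro m _
      rw [mul_sum]
    rw [e1, ← sum_add_distrib]
    apply sum_congr rfl
    intro p _
    rw [← sum_add_distrib]
    apply sum_congr rfl
    intro m _
    rw [hF]
    simp only
    push_cast
    ring
  have hE1 : ‖∑ p ∈ PS P, ∑ m ∈ Icc 1 N, ((f (p * m) - u p * f m : ℤ) : ℂ) * (ee (((p * m : ℕ) : ℝ) * α) * T (p * m))‖ ≤ 2 * H * N := by
    refine (norm_sum_le _ _).trans ?_
    have e1 : ∀ p ∈ PS P, ‖∑ m ∈ Icc 1 N, ((f (p * m) - u p * f m : ℤ) : ℂ) * (ee (((p * m : ℕ) : ℝ) * α) * T (p * m))‖ ≤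
        2 * H * N * (1 / (p : ℝ) ^ 2) := by
      intro p hp
      unfold PS at hp
      rw [mem_filter, mem_Icc] at hp
      refine (norm_sum_le _ _).trans ?_
      have e2 : ∀ m ∈ Icc 1 N, ‖((f (p * m) - u p * f m : ℤ) : ℂ) * (ee (((p * m : ℕ) : ℝ) * α) * T (p * m))‖ ≤
          if p * m ≤ N ∧ p ∣ m then 2 * H else 0 := by
        intro m _
        rw [norm_mul, norm_mul, norm_ee, one_mul]
        split_ifs with h
        · have e3 : ‖((f (p * m) - u p * f m : ℤ) : ℂ)‖ ≤ 2 := by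
            push_cast
            refine (norm_sub_le _ _).trans ?_
            have h1 := hfc (p * m)
            have h2 : ‖(u p : ℂ) * (f m : ℂ)‖ ≤ 1 := by
              rw [norm_mul]
              calc ‖(u p : ℂ)‖ * ‖(f m : ℂ)‖ ≤ 1 * 1 :=
                    mul_le_mul (huc p) (hfc m) (norm_nonneg _) (by norm_num)
                _ = 1 := one_mul 1
            linarith
          exact mul_le_mul e3 (hT _) (norm_nonneg _) (by norm_num)
        · by_cases h1 : p * m ≤ N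
          · have h2 : ¬ p ∣ m := fun h2 => h ⟨h1, h2⟩
            rw [hf p m hp.2 h2]
            simp
          · rw [hT3 _ (by omega)]
            simp
      refine (sum_le_sum e2).trans ?_
      rw [← sum_filter, sum_const, nsmul_eq_mul]
      calc (((Icc 1 N).filter (fun m => p * m ≤ N ∧ p ∣ m)).card : ℝ) * (2 * H) ≤ (N * (1 / (p : ℝ) ^ 2)) * (2 * H) :=
            mul_le_mul_of_nonneg_right (card_mult_le2 N p hp.2.pos) (by positivity)
        _ = _ := by ring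
    refine (sum_le_sum e1).trans ?_
    rw [← mul_sum]
    have e2 : ∑ p ∈ PS P, 1 / (p : ℝ) ^ 2 ≤ 1 / ((1 : ℕ) : ℝ) := by
      apply mv_sum_inv_sq _ 1 le_rfl
      intro d hd
      unfold PS at hd
      rw [mem_filter, mem_Icc] at hd
      omega
    rw [Nat.cast_one, div_one] at e2
    calc 2 * H * N * ∑ p ∈ PS P, 1 / (p : ℝ) ^ 2 ≤ 2 * H * N * 1 := mul_le_mul_of_nonneg_left e2 (by positivity)
      _ = _ := mul_one _
  have hbil := bilin' W X H A hH hHX hA T hT hT2 hT3 α hW hα P hPW' hPW hL (fun p => (u p : ℂ)) huc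
  rw [← hN, ← hLd] at hbil
  have hSig : ‖∑ m ∈ Icc 1 N, (f m : ℂ) * ∑ p ∈ PS P, (u p : ℂ) * (ee (((p * m : ℕ) : ℝ) * α) * T (p * m))‖ ≤ H * (N * √(2 * L)) := by
    have e1 : ‖∑ m ∈ Icc 1 N, (f m : ℂ) * ∑ p ∈ PS P, (u p : ℂ) * (ee (((p * m : ℕ) : ℝ) * α) * T (p * m))‖ ≤
        ∑ m ∈ Icc 1 N, ‖∑ p ∈ PS P, (u p : ℂ) * (ee (((p * m : ℕ) : ℝ) * α) * T (p * m))‖ := by
      refine (norm_sum_le _ _).trans ?_
      apply sum_le_sum
      intro m _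
      rw [norm_mul]
      exact mul_le_of_le_one_left (norm_nonneg _) (hfc m)
    refine e1.trans ?_
    apply le_of_sq_le_sq _ (by positivity)
    have e2 := sq_sum_le_card_mul_sum_sq (s := Icc 1 N) (f := fun m => ‖∑ p ∈ PS P, (u p : ℂ) * (ee (((p * m : ℕ) : ℝ) * α) * T (p * m))‖)
    rw [Nat.card_Icc, Nat.add_sub_cancel] at e2
    refine e2.trans ?_
    rw [mul_pow, mul_pow, Real.sq_sqrt (by positivity)]
    calc (N : ℝ) * ∑ m ∈ Icc 1 N, ‖∑ p ∈ PS P, (u p : ℂ) * (ee (((p * m : ℕ) : ℝ) * α) * T (p * m))‖ ^ 2 ≤ N * (H ^ 2 * N * (2 * L)) :=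
          mul_le_mul_of_nonneg_left hbil hN0.le
      _ = _ := by ring
  -- conclusion
  have hmain : (L : ℂ) * ∑ n ∈ Icc 1 N, F n = ∑ n ∈ Icc 1 N, (w n : ℂ) * F n - ∑ n ∈ Icc 1 N, ((w n - L : ℝ) : ℂ) * F n := by
    rw [mul_sum, ← sum_sub_distrib]
    apply sum_congr rfl
    intro n _
    push_cast
    ring
  have hfin : L * ‖∑ n ∈ Icc 1 N, F n‖ ≤ H * (N * √(2 * L)) + 2 * H * N + H * (N * √(2 * L)) := by
    calc L * ‖∑ n ∈ Icc 1 N, F n‖ = ‖(L : ℂ) * ∑ n ∈ Icc 1 N, F n‖ := by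
          rw [norm_mul, Complex.norm_real, Real.norm_of_nonneg hL0.le]
      _ ≤ ‖∑ n ∈ Icc 1 N, (w n : ℂ) * F n‖ + ‖∑ n ∈ Icc 1 N, ((w n - L : ℝ) : ℂ) * F n‖ := by
          rw [hmain]; exact norm_sub_le _ _
      _ ≤ (H * (N * √(2 * L)) + 2 * H * N) + H * (N * √(2 * L)) := by
          apply add_le_add _ hS2
          rw [hS1, hS1']
          refine (norm_add_le _ _).trans ?_
          exact add_le_add hSig hE1
  have hgoal : ∑ n ∈ Icc 1 (3 * X), (f n : ℂ) * ee ((n : ℝ) * α) * T n = ∑ n ∈ Icc 1 N, F n := by rw [hF, hN]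
  rw [hgoal, ← hLd, le_div_iff₀ (Real.sqrt_pos.2 hL0)]
  obtain ⟨S, hS⟩ : ∃ S, S = ‖∑ n ∈ Icc 1 N, F n‖ := ⟨_, rfl⟩
  rw [← hS] at hfin ⊢
  have hS0 : 0 ≤ S := by rw [hS]; exact norm_nonneg _
  have hr : √(2 * L) ≤ 1.5 * √L := by
    rw [Real.sqrt_mul (by norm_num)]
    apply mul_le_mul_of_nonneg_right _ (Real.sqrt_nonneg _)
    rw [Real.sqrt_le_left (by norm_num)]
    norm_num
  obtain ⟨s, hs⟩ : ∃ s, s = √L := ⟨_, rfl⟩
  have hs0 : 0 < s := by rw [hs]; exact Real.sqrt_pos.2 hL0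
  have hs1 : 1 ≤ s := by rw [hs]; exact Real.one_le_sqrt.2 hL1
  have hss : s * s = L := by rw [hs]; exact Real.mul_self_sqrt hL0.le
  rw [← hs] at hr ⊢
  have hHN : 0 ≤ H * N := by positivity
  have h1 : s * (S * s) ≤ s * (15 * H * X) := by
    calc s * (S * s) = L * S := by rw [← hss]; ring
      _ ≤ H * (N * √(2 * L)) + 2 * H * N + H * (N * √(2 * L)) := hfin
      _ = (H * N) * (2 * √(2 * L) + 2) := by ring
      _ ≤ (H * N) * (5 * s) := by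
          apply mul_le_mul_of_nonneg_left _ hHN
          linarith
      _ = s * (15 * H * X) := by rw [hNr]; ring
  exact le_of_mul_le_mul_left h1 hs0

end Pool.Agent.R512.G
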