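import Pool.Agent.R512.G.Forms2

/-!
Library R512.G (helper512): real valued multiplicative functions which pretend to be no real character.
-/

set_option autoImplicit false

namespace Pool.Agent.R512.G

open Finset Filter Topology
open Pool.Agent.Y872.L (CM NonPret Pr cm_abs)
open Pool.Agent.Y868.VR (MB NP mz gg)
open Pool.Agent.Y958.U
open Pool.Agent.Y958.E

/-- the completely multiplicative function with the values `s p` at the primes -/
noncomputable def cmOf (s : ℕ → ℤ) (n : ℕ) : ℤ := if n = 0 then 0 else n.factorization.prod fun p k => s p ^ k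

lemma cmOf_cm (s : ℕ → ℤ) (hs : ∀ p, s p = 1 ∨ s p = -1) : CM (cmOf s) where
  zero := by simp [cmOf]
  one := by simp [cmOf]
  mul m n := by
    unfold cmOf
    by_cases hm : m = 0
    · simp [hm]
    by_cases hn : n = 0
    · simp [hn]
    rw [if_neg (Nat.mul_ne_zero hm hn), if_neg hm, if_neg hn, Nat.factorization_mul hm hn,
      Finsupp.prod_add_index']
    · intro p; exact pow_zero _
    · intro p k l; exact pow_add _ _ _
  val n hn := by
    unfold cmOf
    rw [if_neg (by omega)]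
    unfold Finsupp.prod
    have h : ∀ t : Finset ℕ, (∏ p ∈ t, s p ^ n.factorization p) = 1 ∨
        (∏ p ∈ t, s p ^ n.factorization p) = -1 := by
      intro t
      induction t using Finset.induction_on with
      | empty => left; simp
      | insert a t ha ih =>
        rw [prod_insert ha]
        have h1 : s a ^ n.factorization a = 1 ∨ s a ^ n.factorization a = -1 := by
          rcases hs a with h | h
          · left; rw [h, one_pow]
          · rw [h]; exact neg_one_pow_eq_or ℤ _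
        rcases h1 with h1 | h1 <;> rcases ih with h2 | h2 <;> rw [h1, h2] <;> norm_num
    exact h _

lemma cmOf_prime (s : ℕ → ℤ) {p : ℕ} (hp : p.Prime) : cmOf s p = s p := by
  unfold cmOf
  rw [if_neg hp.ne_zero, hp.factorization]
  simp

/-- the values of real characters are real -/
lemma real_char {q : ℕ} (χ : DirichletCharacter ℂ q) (hχ : χ ^ 2 = 1) (n : ZMod q) :
    χ n = 0 ∨ χ n = 1 ∨ χ n = -1 := by
  by_cases hn : IsUnit n
  · right
    have h1 : (χ n) ^ 2 = 1 := by
      have h2 := congrArg (fun ψ : DirichletCharacter ℂ q => ψ n) hχ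
      simp only [MulChar.pow_apply' χ (two_ne_zero)] at h2
      rw [h2, MulChar.one_apply hn]
    exact sq_eq_one_iff.1 h1
  · left
    exact χ.map_nonunit hn

/-- `g` pretends to be no real character -/
def NonReal (g : ℕ → ℂ) : Prop := ∀ (q : ℕ) (χ : DirichletCharacter ℂ q), 1 ≤ q → χ ^ 2 = 1 →
  ¬ Summable (fun p : Nat.Primes => (1 - (g p * (starRingEnd ℂ) (χ ((p : ℕ) : ZMod q))).re) / ((p : ℕ) : ℝ))

lemma real_eq {z : ℂ} (hz : z.im = 0) : z = ((if 0 ≤ z.re then (1 : ℤ) else -1 : ℤ) : ℂ) * (‖z‖ : ℂ) := by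
  have h1 : ‖z‖ = |z.re| := by
    rw [← Complex.re_add_im z, hz]
    simp
  rw [h1]
  apply Complex.ext
  · split_ifs with h
    · rw [abs_of_nonneg h]; simp
    · push Not at h
      rw [abs_of_neg h]; simp
  · rw [hz]
    split_ifs <;> simp

lemma dich {g : ℕ → ℂ} (hg : BM g) (hr : ∀ n, (g n).im = 0) (hN : NonReal g) :
    (¬ Summable (fun p : Nat.Primes => (1 - ‖g p‖) / ((p : ℕ) : ℝ))) ∨
      ∃ f : ℕ → ℤ, CM f ∧ NonPret f ∧ PretF f g := by
  classical
  by_cases hs : Summable (fun p : Nat.Primes => (1 - ‖g p‖) / ((p : ℕ) : ℝ))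
  swap
  · exact Or.inl hs
  right
  set s : ℕ → ℤ := fun p => if 0 ≤ (g p).re then 1 else -1 with hsd
  have hs1 : ∀ p, s p = 1 ∨ s p = -1 := by
    intro p
    rw [hsd]
    simp only
    split_ifs
    · left; rfl
    · right; rfl
  have hgs : ∀ p, g p = ((s p : ℤ) : ℂ) * (‖g p‖ : ℂ) := fun p => real_eq (hr p)
  have hss : ∀ p, ((s p : ℤ) : ℂ) * ((s p : ℤ) : ℂ) = 1 := by
    intro p
    rcases hs1 p with h | h <;> rw [h] <;> norm_num
  refine ⟨cmOf s, cmOf_cm s hs1, ?_, ?_⟩
  · intro Q hQ χ hχ hP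
    apply hN Q χ hQ hχ
    have hP' : Summable (fun p : Nat.Primes => if ((p : ℕ)).Prime ∧ ((cmOf s p : ℤ) : ℂ) ≠ χ ((p : ℕ) : ZMod Q)
        then 1 / (((p : ℕ) : ℕ) : ℝ) else 0) := by
      have h1 : Summable (fun p : ℕ => if p.Prime ∧ ((cmOf s p : ℤ) : ℂ) ≠ χ ((p : ℕ) : ZMod Q)
        then 1 / ((p : ℕ) : ℝ) else 0) := by
        refine hP.congr fun p => ?_
        congr!
      exact h1.subtype _
    refine Summable.of_nonneg_of_le (fun p => ?_) (fun p => ?_) (hs.add (hP'.mul_left 2))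
    · apply div_nonneg _ (Nat.cast_nonneg _)
      have h1 : (g p * (starRingEnd ℂ) (χ ((p : ℕ) : ZMod Q))).re ≤ 1 := by
        refine (Complex.re_le_norm _).trans ?_
        rw [norm_mul, RCLike.norm_conj]
        calc ‖g p‖ * ‖χ ((p : ℕ) : ZMod Q)‖ ≤ 1 * 1 :=
              mul_le_mul (hg.1 _) (χ.norm_le_one _) (norm_nonneg _) zero_le_one
          _ = 1 := one_mul 1
      linarith
    · have hp0 : (0 : ℝ) < ((p : ℕ) : ℝ) := by exact_mod_cast p.2.pos
      by_cases hpe : ((cmOf s p : ℤ) : ℂ) = χ ((p : ℕ) : ZMod Q)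
      · rw [if_neg (fun h => h.2 hpe), mul_zero, add_zero]
        apply le_of_eq
        congr 2
        rw [← hpe, cmOf_prime s p.2, hgs p, map_intCast]
        have : ((s p : ℤ) : ℂ) * (‖g p‖ : ℂ) * ((s p : ℤ) : ℂ) = (‖g p‖ : ℂ) := by
          linear_combination (‖g p‖ : ℂ) * hss p
        rw [this, Complex.ofReal_re]
        rw [norm_mul, Complex.norm_real, norm_norm]
        have h2 : ‖((s p : ℤ) : ℂ)‖ = 1 := by
          rcases hs1 p with h | h <;> rw [h] <;> simp
        rw [h2, one_mul]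
      · rw [if_pos ⟨p.2, hpe⟩]
        have h1 : -1 ≤ (g p * (starRingEnd ℂ) (χ ((p : ℕ) : ZMod Q))).re := by
          have h2 := Complex.abs_re_le_norm (g p * (starRingEnd ℂ) (χ ((p : ℕ) : ZMod Q)))
          have h3 : ‖g p * (starRingEnd ℂ) (χ ((p : ℕ) : ZMod Q))‖ ≤ 1 := by
            rw [norm_mul, RCLike.norm_conj]
            calc ‖g p‖ * ‖χ ((p : ℕ) : ZMod Q)‖ ≤ 1 * 1 :=
                  mul_le_mul (hg.1 _) (χ.norm_le_one _) (norm_nonneg _) zero_le_one
              _ = 1 := one_mul 1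
          have := (abs_le.1 (h2.trans h3)).1
          linarith
        have h4 : 0 ≤ (1 - ‖g p‖) / ((p : ℕ) : ℝ) := div_nonneg (by have := hg.1 p; linarith) hp0.le
        have h5 : (1 - (g p * (starRingEnd ℂ) (χ ((p : ℕ) : ZMod Q))).re) / ((p : ℕ) : ℝ) ≤
            2 * (1 / ((p : ℕ) : ℝ)) := by
          rw [mul_one_div]
          apply div_le_div_of_nonneg_right _ hp0.le
          linarith
        linarith
  · refine ⟨1, 1, 0, le_rfl, hs.congr fun p => ?_⟩
    congr 2
    have e1 : ((1 : DirichletCharacter ℂ 1) ((p : ℕ) : ZMod 1)) = 1 := by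
      rw [MulChar.one_apply]
      exact isUnit_of_subsingleton _
    have e2 : nit 0 ((p : ℕ)) = 1 := by
      unfold nit
      simp
    rw [e1, e2, mul_one, mul_one, cmOf_prime s p.2, map_intCast]
    have : g p * ((s p : ℤ) : ℂ) = (‖g p‖ : ℂ) := by
      nth_rewrite 1 [hgs p]
      linear_combination (‖g p‖ : ℂ) * hss p
    rw [this, Complex.ofReal_re]

/-- the means of `‖g‖` vanish if `g` is often small at the primes -/
lemma abs_small {g : ℕ → ℂ} (hg : BM g) (hs : ¬ Summable (fun p : Nat.Primes => (1 - ‖g p‖) / ((p : ℕ) : ℝ)))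
    (a b : ℕ) (ha : 1 ≤ a) (ε : ℝ) (hε : 0 < ε) :
    ∃ N₀ : ℕ, ∀ N : ℕ, N₀ ≤ N → ∑ n ∈ Icc 1 N, ‖g (a * n + b)‖ ≤ ε * N := by
  classical
  by_cases h1 : g 1 = 1
  swap
  · have h10 : g 1 = 0 := by
      have := hg.2 1 1 le_rfl le_rfl (Nat.coprime_one_left 1)
      rw [mul_one] at this
      have h2 : g 1 * (g 1 - 1) = 0 := by linear_combination -this
      rcases mul_eq_zero.1 h2 with h3 | h3
      · exact h3
      · exact absurd (sub_eq_zero.1 h3) h1
    have hz : ∀ n, 1 ≤ n → g n = 0 := by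
      intro n hn
      have := hg.2 n 1 hn le_rfl (Nat.coprime_one_right n)
      rw [mul_one, h10, mul_zero] at this
      exact this
    refine ⟨0, fun N _ => ?_⟩
    rw [sum_eq_zero]
    · positivity
    · intro n hn
      rw [mem_Icc] at hn
      have : 1 ≤ a * n := Nat.one_le_iff_ne_zero.2 (Nat.mul_ne_zero (by omega) (by omega))
      rw [hz _ (by omega), norm_zero]
  set B : ArithmeticFunction ℂ := ⟨fun n => if n = 0 then 0 else (‖g n‖ : ℂ), by simp⟩ with hB
  have hBn : ∀ n, n ≠ 0 → B n = (‖g n‖ : ℂ) := by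
    intro n hn
    show (if n = 0 then 0 else (‖g n‖ : ℂ)) = _
    rw [if_neg hn]
  have hmb : MB B := by
    refine ⟨⟨?_, fun {m n} hmn => ?_⟩, fun n => ?_⟩
    · rw [hBn 1 one_ne_zero, h1]; simp
    · by_cases hm : m = 0
      · subst hm; simp
      by_cases hn : n = 0
      · subst hn; simp
      rw [hBn _ (Nat.mul_ne_zero hm hn), hBn m hm, hBn n hn,
        hg.2 m n (Nat.one_le_iff_ne_zero.2 hm) (Nat.one_le_iff_ne_zero.2 hn) hmn, norm_mul]
      push_cast
      rfl
    · by_cases hn : n = 0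
      · subst hn; simp
      · rw [hBn n hn, Complex.norm_real, norm_norm]
        exact hg.1 n
  have hnp : NP B := by
    intro y hy
    apply hs
    refine Summable.of_nonneg_of_le (fun p => ?_) (fun p => ?_) hy
    · exact div_nonneg (by have := hg.1 p; linarith) (Nat.cast_nonneg _)
    · unfold gg
      have hp0 : (0 : ℝ) < ((p : ℕ) : ℝ) := by exact_mod_cast p.2.pos
      rw [hBn p p.2.ne_zero, add_zero, Real.rpow_neg_one, div_eq_inv_mul]
      apply mul_le_mul_of_nonneg_left _ (inv_nonneg.2 hp0.le)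
      have h2 : ((‖g p‖ : ℂ) * ((p : ℕ) : ℂ) ^ (-((y : ℂ) * Complex.I))).re ≤ ‖g p‖ := by
        refine (Complex.re_le_norm _).trans ?_
        rw [norm_mul, Pool.Agent.Y290.LT.Sup.norm_u p.2.pos, mul_one, Complex.norm_real, norm_norm]
      linarith
  have hm := mz hmb hnp
  rw [Metric.tendsto_atTop] at hm
  set D : ℝ := (a : ℝ) + b with hD
  have hD1 : 1 ≤ D := by
    have : (1 : ℝ) ≤ a := by exact_mod_cast ha
    have : (0 : ℝ) ≤ b := Nat.cast_nonneg _
    rw [hD]; linarith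
  obtain ⟨N₁, hN₁⟩ := hm (ε / (2 * D)) (by positivity)
  obtain ⟨N₂, hN₂⟩ := exists_nat_ge (2 / ε)
  refine ⟨N₁ + N₂ + 1, fun N hN => ?_⟩
  have hN0 : (1 : ℝ) ≤ N := by exact_mod_cast (by omega : 1 ≤ N)
  have hNa : N ≤ a * N := Nat.le_mul_of_pos_left _ ha
  refine (sum_prog (fun m => ‖g m‖) (fun m => norm_nonneg _) a b N ha).trans ?_
  have h2 : ∑ m ∈ range (a * N + b + 1), ‖g m‖ = ‖g 0‖ + ∑ m ∈ Ioc 0 (a * N + b), ‖g m‖ := by
    rw [sum_range_succ']
    rw [add_comm]
    congr 1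
    rw [range_eq_Ico, sum_Ico_add' (fun m => ‖g m‖) 0 (a * N + b) 1]
    apply sum_congr _ (fun _ _ => rfl)
    ext m
    simp only [mem_Ico, mem_Ioc]
    omega
  have h3 := hN₁ (a * N + b) (by omega)
  have hM0 : (0 : ℝ) < ((a * N + b : ℕ) : ℝ) := by exact_mod_cast (by omega : 0 < a * N + b)
  have h4 : ∑ n ∈ Ioc 0 (a * N + b), B n = ((∑ m ∈ Ioc 0 (a * N + b), ‖g m‖ : ℝ) : ℂ) := by
    rw [Complex.ofReal_sum]
    apply sum_congr rfl
    intro m hm
    rw [mem_Ioc] at hm
    exact hBn m (by omega)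
  rw [dist_zero_right, h4, norm_div, Complex.norm_real, Complex.norm_natCast, Real.norm_eq_abs,
    abs_of_nonneg (sum_nonneg fun _ _ => norm_nonneg _), div_lt_iff₀ hM0] at h3
  rw [h2]
  have h5 := hg.1 0
  have h6 : ((a * N + b : ℕ) : ℝ) ≤ D * N := by
    push_cast
    rw [hD]
    have : (0 : ℝ) ≤ b := Nat.cast_nonneg _
    nlinarith
  have h7 : ε / (2 * D) * ((a * N + b : ℕ) : ℝ) ≤ ε / 2 * N := by
    calc ε / (2 * D) * ((a * N + b : ℕ) : ℝ) ≤ ε / (2 * D) * (D * N) :=
          mul_le_mul_of_nonneg_left h6 (by positivity)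
      _ = ε / 2 * N := by field_simp
  have h8 : 1 ≤ ε / 2 * N := by
    have h9 : 2 / ε ≤ N := hN₂.trans (by exact_mod_cast (by omega : N₂ ≤ N))
    rw [div_le_iff₀ hε] at h9
    linarith
  linarith

end Pool.Agent.R512.G
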