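import Pool.Agent.Y958.E.Fixed
import Pool.Agent.R512.G.Two

/-!
Library R512.G (helper512): the uniform bound for correlations of one integer valued factor with vanishing
two point correlations with arbitrary functions, under joint dilation relations.
-/

set_option autoImplicit false

namespace Pool.Agent.R512.G

open Finset Filter Topology
open Pool.Agent.TH112.BL (Bd QD win)
open Pool.Agent.Y958.U
open Pool.Agent.Y958.E
open Pool.Agent.Y958.TC (NM ind Bd_ind ind_nonneg m_class m_sum m_shift um Av Av_bd um_tendsto sS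
  sS_tendsto div_atTop two per_mod sum_inv_large exists_ultra alp alp_f alp_mod Df b1 bad_sum QDp)

open Classical in
/-- **the uniform bound**: for every `d` there is `c > 0` such that the averages of
`ind V n * f (n + x 0) * ∏ F i (n + x (i + 1))` are at most `(1 - c)` times the density of `V` at almost
all scales, for all functions `F i` with approximate dilation relations -/
theorem mainG0 (hPW : S_PW) (hC : S_CUBE) (hB : S_BOX) (hALG : S_ALG2) (hCR : S_CR) (d : ℕ) :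
    ∃ c : ℝ, 0 < c ∧ c < 1 ∧ ∀ Nl : Set ℕ → Prop, NullId Nl →
      ∀ f : ℕ → ℤ, (∀ n, |f n| ≤ 1) →
      ∀ (V : ℕ → Prop) (A : ℕ), 1 ≤ A → (∀ n, V (n + A) ↔ V n) → 0 < dv V A →
      (∀ R : ℕ, 1 ≤ R → ∀ δ : ℝ, 0 < δ → Nl (E2 f V A R δ)) →
      ∀ (x : Fin (d + 1) → ℕ), Function.Injective x →
      ∀ (F : Fin d → ℕ → ℂ), (∀ i n, ‖F i n‖ ≤ 1) →
      ∀ (Bad : ℕ → Set ℕ) (s : ℕ → ℕ → ℂ) (K : ℝ), (∀ M p, ‖s M p‖ ≤ 1) →
        (∀ M p, p ∉ Bad M → 1 - c ≤ ‖s M p‖) →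
        (∀ M X : ℕ, ∑ p ∈ (Icc 1 X).filter (fun p => p.Prime ∧ p ∈ Bad M), (1 : ℝ) / p ≤ K) →
      ∀ E : Set ℕ,
        (∀ W : ℕ, ∃ N₀ : ℕ, ∀ N ∈ E, N₀ ≤ N → ∀ M, N ≤ M → M ≤ W * N → ∀ p, p.Prime → p ≤ W →
          p % A = 1 % A → p ∉ Bad M → ∀ k, M ≤ W * k → p * k ≤ M → (∀ i, ¬ p ∣ k + x i) →
            ((f (p * (k + x 0)) : ℤ) : ℂ) * ∏ i : Fin d, F i (p * (k + x i.succ)) =
              -(s M p) * (((f (k + x 0) : ℤ) : ℂ) * ∏ i : Fin d, F i (k + x i.succ))) →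
        (∀ N ∈ E, (1 - c) * dv V A < ‖AvC N (ps f V F x)‖) → Nl E := by
  obtain ⟨L, hL, hCB⟩ := cb hC hB d (1 / 4) (by norm_num)
  obtain ⟨Mc, hMc⟩ := hALG d L
  set c : ℝ := 1 / (384 * 4 ^ d * ((Mc : ℝ) + 1)) with hc
  have h4d : (1 : ℝ) ≤ 4 ^ d := one_le_pow₀ (by norm_num)
  have hMc0 : (0 : ℝ) ≤ Mc := Nat.cast_nonneg _
  have hc0 : 0 < c := by positivity
  have hc1 : c ≤ 1 / 16 := by
    rw [hc]
    apply one_div_le_one_div_of_le (by norm_num)
    have h1 : (1 : ℝ) * 1 ≤ 4 ^ d * ((Mc : ℝ) + 1) := mul_le_mul h4d (by linarith) zero_le_one (by positivity)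
    have h2 : 384 * 4 ^ d * ((Mc : ℝ) + 1) = 384 * (4 ^ d * ((Mc : ℝ) + 1)) := by ring
    rw [h2]
    linarith
  refine ⟨c, hc0, by linarith, fun Nl hNl f hb V A hA hV hv hE2 x hx F hF Bad s K hs1 hs2 hK E hdil hEc => ?_⟩
  by_contra hcon
  set θ : ℝ := 1 / (4 * 2 ^ d) with hθd
  have h2d : (1 : ℝ) ≤ 2 ^ d := one_le_pow₀ (by norm_num)
  have hθ0 : 0 < θ := by positivity
  have hθ1 : θ < 1 := by
    rw [hθd, div_lt_one (by positivity)]
    linarith
  set ψ : ℕ → ℂ := ps f V F x with hψd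
  set x' : Fin (d + 1) → ℤ := fun j => (x j : ℤ) with hx'd
  have hx' : Function.Injective x' := by
    intro a b hab
    simp only [hx'd, Nat.cast_inj] at hab
    exact hx hab
  obtain ⟨R, hR1, hAR, G0, hG0, hAlg⟩ := hMc A hA x' hx'
  obtain ⟨N₀, hN0⟩ := hCB A hA G0 hG0
  set v : ℝ := dv V A with hvd
  have hv1 : v ≤ 1 := by
    rw [hvd]
    unfold dv
    have hA0 : (0 : ℝ) < A := by exact_mod_cast hA
    rw [div_le_one hA0]
    exact_mod_cast (card_filter_le _ _).trans (by rw [card_range])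
  set κ : ℝ := c * v / 100 with hκd
  have hκ0 : 0 < κ := by positivity
  have hcv : c * v ≤ 1 * 1 := mul_le_mul (by linarith) hv1 hv.le zero_le_one
  have hκ1 : κ ≤ 1 / 4 := by
    rw [hκd]
    linarith
  obtain ⟨P₁, hP₁⟩ := count A hA κ hκ0 N₀
  obtain ⟨P₀, hP₀⟩ := hPW A hA κ hκ0 (by linarith)
  have hφA : (1 : ℝ) ≤ A.totient := by exact_mod_cast Nat.totient_pos.2 hA
  set ε : ℝ := κ ^ 2 / (64 * (A.totient : ℝ)) with hεd
  have hε0 : 0 < ε := by positivity
  set τ : ℝ := min (ε / 100) κ with hτd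
  have hτ0 : 0 < τ := lt_min (by positivity) hκ0
  have hτε : τ ≤ ε / 100 := min_le_left _ _
  have hτκ : τ ≤ κ := min_le_right _ _
  set τ₁ : ℝ := τ / ((d : ℝ) + 1) with hτ1d
  have hd0 : (0 : ℝ) < (d : ℝ) + 1 := by positivity
  have hτ10 : 0 < τ₁ := by positivity
  have hτ11 : (d : ℝ) * τ₁ + τ₁ = τ := by
    rw [hτ1d]; field_simp
  haveI : NeZero A := ⟨by omega⟩
  set E' : Set ℕ := E2 f V A R (v / 8) with hE'd
  have hE'Z : Nl E' := hE2 R hR1 (v / 8) (by positivity)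
  obtain ⟨ε', hε', I₀, hAv⟩ := hNl.avc E E' hcon hE'Z
  obtain ⟨t, q, htne, ht1, hq⟩ := net τ₁ hτ10
  haveI : Nonempty {y // y ∈ t} := ⟨⟨htne.choose, htne.choose_spec⟩⟩
  set Ft : Fin d → ℕ → ℂ := fun i n => (q (F i n) : ℂ) with hFtd
  have hFt : ∀ i n, ‖Ft i n‖ ≤ 1 := fun i n => ht1 _ (q (F i n)).2
  set al : ℕ → (SignType × ZMod A) × (Fin d → {y // y ∈ t}) :=
    fun n => (alp f A n, fun i => q (F i n)) with hal
  set η : ℝ := (ε / 2 / 30) * (ε / 2) / 3 with hη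
  have hη0 : 0 < η := by positivity
  have hlim : Tendsto (fun i : ℕ => (i : ℝ) / 2 ^ i) atTop (𝓝 0) := by
    have := tendsto_pow_const_div_const_pow_of_one_lt 1 (show (1 : ℝ) < 2 by norm_num)
    simpa using this
  have hlim2 : Tendsto (fun i : ℕ => (6 * ((d : ℝ) + 1)) / 2 ^ i) atTop (𝓝 0) := by
    have h1 := tendsto_pow_const_div_const_pow_of_one_lt 0 (show (1 : ℝ) < 2 by norm_num)
    have h2 := h1.const_mul (6 * ((d : ℝ) + 1))
    simp only [pow_zero, mul_zero] at h2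
    refine h2.congr fun i => ?_
    ring
  obtain ⟨I₂, hI₂⟩ := eventually_atTop.1 (hlim.eventually_lt_const hη0)
  obtain ⟨I₃, hI₃⟩ := eventually_atTop.1 (hlim2.eventually_lt_const (show (0 : ℝ) < ε / 4 by positivity))
  set i₀ : ℕ := I₀ + I₂ + I₃ + P₀ + P₁ + A + 1 with hi₀
  set cW : ℕ := 2 * (1 + ∑ i, x i) with hcW
  set B : ℝ := cW * Real.log (Fintype.card ((SignType × ZMod A) × (Fin d → {y // y ∈ t}))) / η with hBd
  have hB0 : 0 ≤ B := by
    rw [hBd]
    have : 0 ≤ Real.log (Fintype.card ((SignType × ZMod A) × (Fin d → {y // y ∈ t}))) :=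
      Real.log_natCast_nonneg _
    positivity
  have hK0 : 0 ≤ K := (sum_nonneg fun p _ => by positivity).trans (hK 0 0)
  set κ' : ℝ := ε / 4 with hκ'd
  have hκ'0 : 0 < κ' := by positivity
  obtain ⟨i₁, hi₁, hS⟩ := sum_inv_large i₀ (by omega) (3 * (B + 4 * K / κ') / ε')
  set S : ℝ := ∑ i ∈ Ico i₀ i₁, (1 : ℝ) / i with hSd
  obtain ⟨𝓤, hU, hmem⟩ := exists_ultra {M : ℕ | M ∉ E' ∧ ε' * S ≤
      ∑ i ∈ Ico i₀ i₁, (1 : ℝ) / i * ∑ p ∈ QQ i, Real.log p / 2 ^ i * (if M / p ∈ E then 1 else 0)}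
    (fun M₀ => by
      obtain ⟨M, hM1, hM2, hM3⟩ := hAv i₀ i₁ (by omega) hi₁ M₀
      exact ⟨M, hM1, hM2, hM3⟩)
  have hψ : ∀ n, ‖ψ n‖ ≤ 1 := by
    intro n
    have h1 := norm_ind_le V n
    have h2 := norm_f_le f hb (n + x 0)
    have h3 := norm_prod_F F hF (fun i => n + x i.succ)
    rw [hψd]
    unfold ps
    rw [norm_mul, norm_mul]
    calc ‖(ind V n : ℂ)‖ * ‖((f (n + x 0) : ℤ) : ℂ)‖ * ‖∏ i : Fin d, F i (n + x i.succ)‖ ≤
        1 * 1 * 1 := by gcongr
      _ = 1 := by norm_num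
  have hw0 : ∀ i, ∀ p ∈ QD i (i + 1), 0 ≤ Real.log (p : ℝ) / 2 ^ i := fun i p _ =>
    div_nonneg (Real.log_natCast_nonneg _) (by positivity)
  -- the limits of the data
  set Bi : Set ℕ := {p | {M | p ∈ Bad M} ∈ (𝓤 : Filter ℕ)} with hBi
  have hBi1 : ∀ p, ∀ᶠ M in (𝓤 : Filter ℕ), (p ∈ Bad M ↔ p ∈ Bi) := by
    intro p
    by_cases hp : p ∈ Bi
    · have h1 : {M | p ∈ Bad M} ∈ (𝓤 : Filter ℕ) := hp
      filter_upwards [h1] with M hM
      exact ⟨fun _ => hp, fun _ => hM⟩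
    · have h1 : {M | p ∈ Bad M}ᶜ ∈ (𝓤 : Filter ℕ) := Ultrafilter.compl_mem_iff_notMem.2 hp
      filter_upwards [h1] with M hM
      exact ⟨fun h => absurd h hM, fun h => absurd h hp⟩
  have hBiK : ∀ X : ℕ, ∑ p ∈ (Icc 1 X).filter (fun p => p.Prime ∧ p ∈ Bi), (1 : ℝ) / p ≤ K := by
    intro X
    have h1 : ∀ᶠ M in (𝓤 : Filter ℕ), ∀ p ∈ Icc 1 X, (p ∈ Bad M ↔ p ∈ Bi) := by
      rw [Filter.eventually_all_finset]
      intro p _
      exact hBi1 p
    obtain ⟨M, hM⟩ := h1.exists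
    refine le_trans (le_of_eq ?_) (hK M X)
    apply sum_congr _ fun _ _ => rfl
    apply filter_congr
    intro p hp
    rw [hM p hp]
  have hslim : ∀ p, ∃ a : ℂ, ‖a‖ ≤ 1 ∧ Tendsto (fun M => s M p) 𝓤 (𝓝 a) :=
    fun p => limC 𝓤 (fun M => s M p) fun M => hs1 M p
  choose si hsi1 hsi2 using hslim
  have hsi3 : ∀ p, p ∉ Bi → 1 - c ≤ ‖si p‖ := by
    intro p hp
    apply ge_of_tendsto (hsi2 p).norm
    filter_upwards [hBi1 p] with M hM
    exact hs2 M p (fun h => hp (hM.1 h))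
  have hbad := bad_sum (um 𝓤 hU) al cW η hη0 i₀ i₁ (by omega)
  have hbad2 := bad_scales Bi K κ' hκ'0 i₀ i₁ (by omega) hBiK
  -- a good scale with a prime `p₀` such that `M / p₀` is exceptional
  have hex : ∃ i ∈ Ico i₀ i₁, (Df (um 𝓤 hU) al b1 () cW i ≤ η * 2 ^ i / i ∧
      ∑ p ∈ (QD i (i + 1)).filter (fun p => p ∈ Bi), Real.log p / 2 ^ i ≤ κ') ∧
      ∃ p₀ ∈ QD i (i + 1), {M : ℕ | M / p₀ ∈ E} ∈ (𝓤 : Filter ℕ) := by
    by_contra hno
    push Not at hno
    set Gd : ℕ → Prop := fun i => Df (um 𝓤 hU) al b1 () cW i ≤ η * 2 ^ i / i ∧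
      ∑ p ∈ (QD i (i + 1)).filter (fun p => p ∈ Bi), Real.log p / 2 ^ i ≤ κ' with hGd
    have hev : ∀ᶠ M in (𝓤 : Filter ℕ), ∀ i ∈ (Ico i₀ i₁).filter Gd, ∀ p ∈ QD i (i + 1), M / p ∉ E := by
      rw [Filter.eventually_all_finset]
      intro i hi
      rw [mem_filter] at hi
      rw [Filter.eventually_all_finset]
      intro p hp
      have h1 := hno i hi.1 hi.2 p hp
      exact Ultrafilter.compl_mem_iff_notMem.2 h1
    obtain ⟨M, hM1, hM2⟩ := (hev.and hmem).exists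
    obtain ⟨-, hM3⟩ := hM2
    have h4 : ∑ i ∈ Ico i₀ i₁, (1 : ℝ) / i * ∑ p ∈ QQ i, Real.log p / 2 ^ i *
        (if M / p ∈ E then 1 else 0) ≤ 3 * (B + 4 * K / κ') := by
      rw [← sum_filter_add_sum_filter_not (Ico i₀ i₁) Gd]
      have h5 : ∑ i ∈ (Ico i₀ i₁).filter Gd,
          (1 : ℝ) / i * ∑ p ∈ QQ i, Real.log p / 2 ^ i * (if M / p ∈ E then 1 else 0) = 0 := by
        apply sum_eq_zero
        intro i hi
        rw [sum_eq_zero, mul_zero]
        intro p hp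
        rw [if_neg (hM1 i hi p hp), mul_zero]
      rw [h5, zero_add]
      have h6 : ∀ i ∈ (Ico i₀ i₁).filter (fun i => ¬ Gd i),
          (1 : ℝ) / i * ∑ p ∈ QQ i, Real.log p / 2 ^ i * (if M / p ∈ E then 1 else 0) ≤ 1 / i * 3 := by
        intro i _
        apply mul_le_mul_of_nonneg_left _ (by positivity)
        have h5 : (0 : ℝ) < 2 ^ i := by positivity
        calc ∑ p ∈ QQ i, Real.log p / 2 ^ i * (if M / p ∈ E then (1 : ℝ) else 0) ≤
              ∑ p ∈ QD i (i + 1), Real.log (p : ℝ) / 2 ^ i := by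
              apply sum_le_sum
              intro p hp
              have := hw0 i p hp
              split_ifs <;> linarith
          _ = (∑ p ∈ QD i (i + 1), Real.log (p : ℝ)) / 2 ^ i := by rw [sum_div]
          _ ≤ 3 := by
              rw [div_le_iff₀ h5]
              exact Pool.Agent.TH575.CW.theta_QD i
      refine (sum_le_sum h6).trans ?_
      rw [← sum_mul, mul_comm]
      apply mul_le_mul_of_nonneg_left _ (by norm_num)
      refine le_trans ?_ (add_le_add hbad hbad2)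
      have h7 : (Ico i₀ i₁).filter (fun i => ¬ Gd i) ⊆
          (Ico i₀ i₁).filter (fun i => ¬ Df (um 𝓤 hU) al b1 () cW i ≤ η * 2 ^ i / i) ∪
          (Ico i₀ i₁).filter (fun i => ¬ ∑ p ∈ (QD i (i + 1)).filter (fun p => p ∈ Bi),
            Real.log p / 2 ^ i ≤ κ') := by
        intro i hi
        rw [mem_filter] at hi
        rw [mem_union, mem_filter, mem_filter]
        by_cases h8 : Df (um 𝓤 hU) al b1 () cW i ≤ η * 2 ^ i / i
        · right
          exact ⟨hi.1, fun h9 => hi.2 ⟨h8, h9⟩⟩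
        · left
          exact ⟨hi.1, h8⟩
      refine (sum_le_sum_of_subset_of_nonneg h7 fun i _ _ => by positivity).trans ?_
      rw [← sum_union_inter]
      have : 0 ≤ ∑ i ∈ (Ico i₀ i₁).filter (fun i => ¬ Df (um 𝓤 hU) al b1 () cW i ≤ η * 2 ^ i / i) ∩
          (Ico i₀ i₁).filter (fun i => ¬ ∑ p ∈ (QD i (i + 1)).filter (fun p => p ∈ Bi),
            Real.log p / 2 ^ i ≤ κ'), (1 : ℝ) / i := sum_nonneg fun i _ => by positivity
      linarith
    have h7 := hM3.trans h4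
    rw [div_lt_iff₀ hε', mul_comm S ε'] at hS
    exact absurd (lt_of_lt_of_le hS h7) (lt_irrefl _)
  obtain ⟨i, hi, ⟨hDf, hbi⟩, p₀, hp₀, hmem0⟩ := hex
  rw [mem_Ico] at hi
  have hip : i < 2 ^ i := Nat.lt_two_pow_self
  have hp₀2 : p₀ ≤ 2 ^ (i + 1) := by
    unfold QD at hp₀
    rw [mem_filter, mem_Ioc] at hp₀
    exact hp₀.1.2
  -- the limit at `p₀`
  obtain ⟨a, ha1, ha2⟩ := limC 𝓤 (fun M => AvC (M / p₀) ψ) fun M => AvC_le _ ψ hψ
  have ha3 : (1 - c) * v ≤ ‖a‖ := by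
    apply ge_of_tendsto ha2.norm
    filter_upwards [hmem0] with M hM
    exact le_of_lt (hEc _ hM)
  set ξ : ℂ := (starRingEnd ℂ) (sg a) with hξ
  have hξ1 : ‖ξ‖ = 1 := by rw [hξ, RCLike.norm_conj, sg_norm]
  have hcs : ∀ z : ℂ, (starRingEnd ℂ) (sg z) * z = (‖z‖ : ℂ) := by
    intro z
    have h1 : (starRingEnd ℂ) (sg z) * sg z = 1 := by
      rw [mul_comm, Complex.mul_conj, Complex.normSq_eq_norm_sq, sg_norm]
      simp
    calc (starRingEnd ℂ) (sg z) * z = (starRingEnd ℂ) (sg z) * (sg z * (‖z‖ : ℂ)) := by rw [sg_mul]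
      _ = ((starRingEnd ℂ) (sg z) * sg z) * (‖z‖ : ℂ) := by ring
      _ = (‖z‖ : ℂ) := by rw [h1, one_mul]
  set ψ' : ℕ → ℝ := fun n => (ξ * ψ n).re with hψ'd
  have hψ' : ∀ n, |ψ' n| ≤ 1 := fun n => re_le hξ1.le (hψ n)
  have hs0 : (1 - c) * v ≤ sS 𝓤 ψ' p₀ := by
    have h1 : Tendsto (fun M => (ξ * AvC (M / p₀) ψ).re) 𝓤 (𝓝 (ξ * a).re) :=
      (Complex.continuous_re.tendsto _).comp (ha2.const_mul ξ)
    have h2 : sS 𝓤 ψ' p₀ = (ξ * a).re := by
      apply tendsto_nhds_unique (sS_tendsto 𝓤 hψ' p₀)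
      refine h1.congr fun M => ?_
      rw [← AvC_mul, AvC_re]
    rw [h2, hξ, hcs a, Complex.ofReal_re]
    exact ha3
  obtain ⟨P, hP1, hP2, hPw⟩ := window κ hκ0 hκ1 i p₀ hp₀
  set Pset : Finset ℕ := (Ioc P ⌊(1 + κ) * P⌋₊).filter (fun p => p.Prime ∧ p % A = 1 % A) with hPset
  have hPsub : Pset ⊆ QD i (i + 1) := by
    intro p hp
    rw [hPset, mem_filter] at hp
    unfold QD
    rw [mem_filter]
    exact ⟨(hPw p hp.1).1, hp.2.1⟩
  have hPc := hP₀ P (by omega)
  set μ := um 𝓤 hU with hμ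
  set ζ : ℕ → ℂ := fun p => -(ξ * (starRingEnd ℂ) (sg (si p))) with hζd
  have hζ1 : ∀ p, ‖ζ p‖ = 1 := by
    intro p
    rw [hζd]
    simp only
    rw [norm_neg, norm_mul, hξ1, RCLike.norm_conj, sg_norm, one_mul]
  set G : ℕ → ℕ → ℝ := fun p n => (ζ p * Gc f V Ft x p n).re with hGd
  have hG1 : ∀ p n, |G p n| ≤ 1 := fun p n => re_le (hζ1 p).le (Gc_le f hb V Ft hFt x p n)
  have hGdiff : ∀ p n, ‖Gc f V Ft x p n - Gc f V F x p n‖ ≤ d * τ₁ := by
    intro p n
    unfold Gc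
    rw [← mul_sub, norm_mul, norm_mul]
    have h1 := norm_ind_le V n
    have h2 := norm_f_le f hb (n + p * x 0)
    have h3 := prod_diff (univ : Finset (Fin d)) (fun i => Ft i (n + p * x i.succ))
      (fun i => F i (n + p * x i.succ)) τ₁ (fun i => hFt i _) (fun i => hF i _)
      (fun i => hq _ (hF i _))
    rw [card_univ, Fintype.card_fin] at h3
    calc ‖(ind V n : ℂ)‖ * ‖((f (n + p * x 0) : ℤ) : ℂ)‖ *
        ‖∏ i : Fin d, Ft i (n + p * x i.succ) - ∏ i : Fin d, F i (n + p * x i.succ)‖ ≤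
        1 * 1 * (d * τ₁) := by gcongr
      _ = d * τ₁ := by ring
  obtain ⟨W, hW1, hW2⟩ : ∃ W : ℕ, 2 ^ (i + 1) ≤ W ∧ 2 * 2 ^ (i + 1) / τ ≤ (W : ℝ) ∧ True := by
    refine ⟨2 ^ (i + 1) + ⌈(2 : ℝ) * 2 ^ (i + 1) / τ⌉₊, by omega, ?_, trivial⟩
    push_cast
    have := Nat.le_ceil ((2 : ℝ) * 2 ^ (i + 1) / τ)
    have h5 : (0 : ℝ) < 2 ^ (i + 1) := by positivity
    linarith
  have hW2 := hW2.1
  have hW3 : 2 * 2 ^ (i + 1) ≤ W := by
    have h1 : (2 : ℝ) * 2 ^ (i + 1) ≤ W := by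
      refine le_trans ?_ hW2
      rw [le_div_iff₀ hτ0]
      have h5 : (0 : ℝ) ≤ 2 * 2 ^ (i + 1) := by positivity
      have h6 : τ ≤ 1 := by linarith
      calc (2 : ℝ) * 2 ^ (i + 1) * τ ≤ 2 * 2 ^ (i + 1) * 1 := mul_le_mul_of_nonneg_left h6 h5
        _ = 2 * 2 ^ (i + 1) := mul_one _
    exact_mod_cast h1
  obtain ⟨N₁, hN₁⟩ := hdil W
  have hdec := dec2 𝓤 hU al cW (show (0 : ℝ) < ε / 2 by positivity) i (by omega) (hI₂ i (by omega)) hDf G hG1 (by
      intro p hp n n' hwin j hj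
      have hp2 : p ≤ 2 ^ (i + 1) := by
        unfold QD at hp
        rw [mem_filter, mem_Ioc] at hp
        exact hp.1.2
      have hidx : ∀ t', t' < cW * 2 ^ i → al (n + t') = al (n' + t') := by
        intro t' ht'
        exact congrFun hwin ⟨t', ht'⟩
      have hbd : p * (1 + ∑ i, x i) ≤ cW * 2 ^ i := by
        have h3 : p * (1 + ∑ i, x i) ≤ 2 ^ (i + 1) * (1 + ∑ i, x i) := Nat.mul_le_mul_right _ hp2
        have h4 : 2 ^ (i + 1) * (1 + ∑ i, x i) = cW * 2 ^ i := by rw [hcW, pow_succ]; ring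
        omega
      have h5 : p * (1 + ∑ i, x i) = p + p * ∑ i, x i := by ring
      have h2 : j < cW * 2 ^ i := by omega
      have h1 : ∀ l, j + p * x l < cW * 2 ^ i := by
        intro l
        have h6 : x l ≤ ∑ i, x i := single_le_sum (f := x) (fun _ _ => Nat.zero_le _) (mem_univ l)
        have h7 : p * x l ≤ p * ∑ i, x i := Nat.mul_le_mul_left _ h6
        omega
      have ea : ∀ t', t' < cW * 2 ^ i → alp f A (n + t') = alp f A (n' + t') := by
        intro t' ht'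
        have := congrArg Prod.fst (hidx t' ht')
        exact this
      have eb : ∀ t', t' < cW * 2 ^ i → ∀ l, Ft l (n + t') = Ft l (n' + t') := by
        intro t' ht' l
        have h8 := congrArg Prod.snd (hidx t' ht')
        have h9 := congrFun h8 l
        rw [hFtd]
        simp only
        simp only [hal] at h9
        rw [h9]
      rw [hGd]
      simp only
      congr 2
      unfold Gc
      congr 1
      · congr 1
        · congr 1
          apply ind_at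
          apply V_congr hV
          exact alp_mod (ea j h2)
        · have := alp_f hb (ea _ (h1 0))
          rw [add_assoc n j, this, add_assoc n' j]
      · apply prod_congr rfl
        intro l _
        have := eb _ (h1 l.succ) l
        rw [add_assoc n j, this, add_assoc n' j])
    (univ : Finset (Fin (d + 1))) x (fun p => ‖si p‖) (fun p => by
      rw [abs_of_nonneg (norm_nonneg _)]; exact hsi1 p) ψ' hψ' τ hτ0.le (Pset.filter (fun p => p ∉ Bi))
    ((filter_subset _ _).trans hPsub) (by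
      intro p hp
      rw [mem_filter] at hp
      obtain ⟨hpP, hpB⟩ := hp
      have hpq := hPsub hpP
      rw [hPset, mem_filter] at hpP
      obtain ⟨hpI, hpp, hpA⟩ := hpP
      have hp2 : p ≤ 2 ^ (i + 1) := by
        unfold QD at hpq
        rw [mem_filter, mem_Ioc] at hpq
        exact hpq.1.2
      have hsp : ∀ᶠ M in (𝓤 : Filter ℕ), ‖s M p - si p‖ < τ₁ := by
        have h1 := (hsi2 p).sub_const (si p)
        rw [sub_self] at h1
        have h2 := h1.norm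
        rw [norm_zero] at h2
        exact h2.eventually_lt_const hτ10
      have hNge : ∀ᶠ M in (𝓤 : Filter ℕ), N₁ ≤ M / p₀ :=
        (div_atTop 𝓤 hU p₀ (QDp hp₀).pos).eventually_ge_atTop N₁
      filter_upwards [hmem0, hBi1 p, hsp, hNge, hU (eventually_ge_atTop p),
        hU (eventually_ge_atTop p₀)] with M hM1 hM2 hM3 hM4 hM5 hM6
      intro k hk1 hk2 hk3
      have hp₀0 : 0 < p₀ := (QDp hp₀).pos
      have hrel := hN₁ (M / p₀) hM1 hM4 M (Nat.div_le_self _ _) (by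
        have h1 := Nat.lt_mul_div_succ M hp₀0
        have h2 : 1 ≤ M / p₀ := (Nat.one_le_div_iff hp₀0).2 hM6
        have h3 : p₀ * (M / p₀ + 1) ≤ p₀ * (2 * (M / p₀)) := Nat.mul_le_mul_left _ (by omega)
        have h4 : p₀ * (2 * (M / p₀)) = (2 * p₀) * (M / p₀) := by ring
        have h5 : (2 * p₀) * (M / p₀) ≤ W * (M / p₀) := Nat.mul_le_mul_right _ (by omega)
        omega) p hpp (by omega) hpA (fun h => hpB (hM2.1 h)) k (by
        have hp0 : 0 < p := hpp.pos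
        have h1 := Nat.lt_mul_div_succ M hp0
        have h2 : 1 ≤ M / p := (Nat.one_le_div_iff hp0).2 hM5
        have h3 : p * (M / p + 1) ≤ p * (2 * (M / p)) := Nat.mul_le_mul_left _ (by omega)
        have h4 : (M : ℝ) ≤ p * (2 * ((M / p : ℕ) : ℝ)) := by exact_mod_cast (by omega : M ≤ p * (2 * (M / p)))
        have h5 : ((M / p : ℕ) : ℝ) ≤ k / τ := by
          rw [le_div_iff₀ hτ0, mul_comm]; exact hk1
        have h6 : (p : ℝ) ≤ 2 ^ (i + 1) := by exact_mod_cast hp2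
        have h7 : (M : ℝ) ≤ W * k := by
          calc (M : ℝ) ≤ p * (2 * ((M / p : ℕ) : ℝ)) := h4
            _ ≤ 2 ^ (i + 1) * (2 * (k / τ)) := by gcongr
            _ = (2 * 2 ^ (i + 1) / τ) * k := by ring
            _ ≤ W * k := mul_le_mul_of_nonneg_right hW2 (Nat.cast_nonneg _)
        exact_mod_cast h7) (by
        have := Nat.mul_le_mul_left p hk2.le
        exact this.trans (Nat.mul_div_le M p)) (fun l => hk3 l (mem_univ l))
      -- the dilation relation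
      have hGF : Gc f V F x p (p * k) = -(s M p) * ψ k := by
        unfold Gc
        rw [hψd]
        unfold ps
        have e1 : ind V (p * k) = ind V k := by
          apply ind_at
          apply V_congr hV
          have h3 : p ≡ 1 [MOD A] := hpA
          have := Nat.ModEq.mul_right k h3
          rwa [one_mul] at this
        have e2 : ((f (p * k + p * x 0) : ℤ) : ℂ) = ((f (p * (k + x 0)) : ℤ) : ℂ) := by
          rw [show p * k + p * x 0 = p * (k + x 0) by ring]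
        have e3 : ∏ l : Fin d, F l (p * k + p * x l.succ) = ∏ l : Fin d, F l (p * (k + x l.succ)) := by
          apply prod_congr rfl
          intro l _
          rw [show p * k + p * x l.succ = p * (k + x l.succ) by ring]
        rw [e1, e2, e3]
        linear_combination (ind V k : ℂ) * hrel
      have e4 : (‖si p‖ : ℝ) * ψ' k = (ζ p * (-(si p) * ψ k)).re := by
        rw [hψ'd, hζd]
        simp only
        have h1 := hcs (si p)
        have h2 : -(ξ * (starRingEnd ℂ) (sg (si p))) * (-(si p) * ψ k) =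
            ((starRingEnd ℂ) (sg (si p)) * si p) * (ξ * ψ k) := by ring
        rw [h2, h1, Complex.re_ofReal_mul]
      rw [hGd]
      simp only
      rw [e4, ← Complex.sub_re, ← mul_sub]
      refine (Complex.abs_re_le_norm _).trans ?_
      rw [norm_mul, hζ1 p, one_mul]
      have e5 : Gc f V Ft x p (p * k) - -(si p) * ψ k =
          (Gc f V Ft x p (p * k) - Gc f V F x p (p * k)) + -(s M p - si p) * ψ k := by
        rw [hGF]; ring
      rw [e5]
      refine (norm_add_le _ _).trans ?_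
      rw [norm_mul, norm_neg, ← hτ11]
      apply add_le_add (hGdiff _ _)
      calc ‖s M p - si p‖ * ‖ψ k‖ ≤ τ₁ * 1 := mul_le_mul hM3.le (hψ k) (norm_nonneg _) hτ10.le
        _ = τ₁ := mul_one _)
  rw [card_univ, Fintype.card_fin] at hdec
  have hI3 := hI₃ i (by omega)
  set D : ℕ → ℝ := fun p => if p ∈ Bi then 1 else |‖si p‖ * sS 𝓤 ψ' p - μ.m (G p)| with hDd
  have hDsum : ∑ p ∈ Pset, Real.log p / 2 ^ i * D p ≤ 2 * ε := by
    rw [← sum_filter_add_sum_filter_not Pset (fun p => p ∈ Bi)]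
    have h1 : ∑ p ∈ Pset.filter (fun p => p ∈ Bi), Real.log p / 2 ^ i * D p ≤ κ' := by
      refine le_trans ?_ hbi
      have h2 : ∀ p ∈ Pset.filter (fun p => p ∈ Bi), Real.log p / 2 ^ i * D p = Real.log p / 2 ^ i := by
        intro p hp
        rw [mem_filter] at hp
        rw [hDd]
        simp only
        rw [if_pos hp.2, mul_one]
      rw [sum_congr rfl h2]
      apply sum_le_sum_of_subset_of_nonneg
      · intro p hp
        rw [mem_filter] at hp ⊢
        exact ⟨hPsub hp.1, hp.2⟩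
      · intro p hp _
        exact hw0 i p (mem_filter.1 hp).1
    have h2 : ∑ p ∈ Pset.filter (fun p => ¬ p ∈ Bi), Real.log p / 2 ^ i * D p ≤
        ε / 2 + 6 * ((d + 1 : ℕ) : ℝ) / 2 ^ i + 9 * τ := by
      refine le_trans (le_of_eq ?_) hdec
      apply sum_congr rfl
      intro p hp
      rw [mem_filter] at hp
      rw [hDd]
      simp only
      rw [if_neg hp.2]
    have h3 : 6 * ((d + 1 : ℕ) : ℝ) / 2 ^ i < ε / 4 := by
      push_cast
      exact hI3
    linarith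
  have hmany := many_good hκ0 hφA (le_of_eq hεd) i P (by omega) hP1 hP2 Pset hPsub hPc
    D (fun p => by rw [hDd]; simp only; split_ifs; exacts [zero_le_one, abs_nonneg _]) hDsum
  set Good : Finset ℕ := Pset.filter (fun p => D p ≤ κ) with hGood
  obtain ⟨N, N₂, T, hN, hT1, hT2, hT3, hT4⟩ := hP₁ P (by omega) Good (by
    intro p hp
    rw [hGood, mem_filter, hPset, mem_filter] at hp
    exact ⟨hp.1.1, hp.1.2.1, hp.1.2.2⟩) hmany
  obtain ⟨r, j, hj, hω⟩ := hN0 N hN N₂ T hT1 hT2 hT4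
  choose n hn using hω
  set ρ₀ : ℝ := 3 * c * v with hρ₀
  set ρ : ℝ := 2 * ρ₀ / θ ^ 2 with hρ
  have hρ0 : 0 ≤ ρ := by positivity
  have hφT : Tri (fun z : ℤ => f z.toNat) := fun z => tri_f f hb _
  -- the relation of a good prime
  have hrel : ∀ p ∈ Good, Rel μ V (fun z => f z.toNat) (fun i z => sg (F i z.toNat)) x' (2 * θ) ρ
      (p : ℤ) := by
    intro p hp
    rw [hGood, mem_filter] at hp
    have hpB : p ∉ Bi := by
      intro h
      have h1 := hp.2
      rw [hDd] at h1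
      simp only at h1
      rw [if_pos h] at h1
      linarith
    have hpD : |‖si p‖ * sS 𝓤 ψ' p - μ.m (G p)| ≤ κ := by
      have h1 := hp.2
      rw [hDd] at h1
      simp only at h1
      rwa [if_neg hpB] at h1
    have hpI : p ∈ Ioc P ⌊(1 + κ) * P⌋₊ := (mem_filter.1 hp.1).1
    have hpp : p.Prime := QDp (hPsub hp.1)
    have hwin := (hPw p hpI).2
    have h1 : (1 - c) * v - 2 * κ ≤ sS 𝓤 ψ' p := by
      have h2 : |sS 𝓤 ψ' p₀ - sS 𝓤 ψ' p| ≤ 2 * κ := by
        rcases le_total p₀ p with h3 | h3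
        · refine (sS_cont 𝓤 hU hψ' (QDp hp₀).pos h3).trans ?_
          have := hwin.1 h3
          linarith
        · rw [abs_sub_comm]
          refine (sS_cont 𝓤 hU hψ' hpp.pos h3).trans ?_
          have := hwin.2 h3
          linarith
      have := (abs_le.1 h2).2
      linarith
    have h2 : (1 - c) * ((1 - c) * v - 2 * κ) ≤ ‖si p‖ * sS 𝓤 ψ' p := by
      have h3 := hsi3 p hpB
      have h4 : 0 ≤ (1 - c) * v - 2 * κ := by
        have h5 := mul_nonneg (by linarith : (0 : ℝ) ≤ 1 - c - c / 50) hv.le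
        have h6 : (1 - c) * v - 2 * κ = (1 - c - c / 50) * v := by rw [hκd]; ring
        rw [h6]
        exact h5
      exact mul_le_mul h3 h1 h4 (norm_nonneg _)
    have h3 : (1 - c) * ((1 - c) * v - 2 * κ) - κ ≤ μ.m (G p) := by
      have := (abs_le.1 hpD).2
      linarith
    have h4 : μ.m (G p) - d * τ₁ ≤ μ.m (fun n => (ζ p * Gc f V F x p n).re) := by
      have hB1 : Bd (G p) := ⟨1, hG1 p⟩
      have hB2 : Bd (fun n => (ζ p * Gc f V F x p n).re) :=
        ⟨1, fun n => re_le (hζ1 p).le (Gc_le f hb V F hF x p n)⟩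
      have hB3 : Bd (fun _ : ℕ => (1 : ℝ)) := ⟨1, fun n => by simp⟩
      have h5 : μ.m (G p) ≤ μ.m (fun n => (ζ p * Gc f V F x p n).re) + (d * τ₁) * μ.m (fun _ => 1) := by
        rw [← μ.smul _ _ hB3, ← μ.add _ _ hB2 (hB3.cmul _)]
        apply μ.mono hB1 (hB2.add (hB3.cmul _))
        intro n
        have h6 : G p n - (ζ p * Gc f V F x p n).re ≤ d * τ₁ := by
          rw [hGd]
          simp only
          rw [← Complex.sub_re, ← mul_sub]
          refine (le_abs_self _).trans ((Complex.abs_re_le_norm _).trans ?_)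
          rw [norm_mul, hζ1 p, one_mul]
          exact hGdiff p n
        linarith
      rw [μ.one, mul_one] at h5
      linarith
    apply rel_of μ f hb V F hF x (ζ p) (hζ1 p) p θ ρ₀ hθ0 hθ1
    rw [m_V μ hA hV, ← hvd, hρ₀]
    have h5 : (d : ℝ) * τ₁ ≤ κ := by linarith
    have h7 : 0 ≤ c * κ := by positivity
    have h8 : (1 - c) * ((1 - c) * v - 2 * κ) = v - 2 * (c * v) + c * c * v - 2 * κ + 2 * (c * κ) := by ring
    have h9 : 100 * κ = c * v := by rw [hκd]; ring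
    have h10 : 0 ≤ c * c * v := by positivity
    have h11 : 3 * c * v = 3 * (c * v) := by ring
    rw [h11]
    linarith
  obtain ⟨y, hy⟩ := hAlg r j hj n (HH μ (fun z => f z.toNat) V ρ)
    (fun g g' a a' => HH_add μ _ V ρ hφT g g' a a')
    (fun g a t ht hg => HH_T μ _ V ρ A hV g a t ht hg)
    (fun g a a' haa hg => HH_mono μ _ V ρ hρ0 g a a' haa hg) (by
      intro ω
      apply hCR μ V A hA hV _ hφT d (fun i z => sg (F i z.toNat)) (fun i z => sg_norm _) x' (2 * θ) ρ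
        (by positivity) (by
          rw [hθd]
          have : (2 : ℝ) ^ d * (2 * (1 / (4 * 2 ^ d))) = 1 / 2 := by
            field_simp
            norm_num
          rw [this]
          norm_num) (n ω) (fun i => r i + if i ∈ ω then (j i : ℤ) * G0 i else 0)
      intro ζ'
      have h1 := hn ω ζ'
      obtain ⟨p, hp, hpe⟩ := hT3 _ h1
      unfold sr at hpe
      rw [hpe]
      exact hrel p hp)
  have htwo := HH_two μ _ V ρ hφT y R hR1 Mc hy
  have hbound := two_bound 𝓤 hU f hb V A R hA hV (v / 8) (by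
    filter_upwards [hmem] with M hM
    exact hM.1) y
  rw [m_V μ hA hV, ← hvd] at htwo
  have h9 : v - 2 * (Mc * ρ) ≤ v / 8 := htwo.trans hbound
  have h10 : (Mc : ℝ) * ρ ≤ v / 4 := by
    have e1 : ρ = 96 * 4 ^ d * c * v := by
      rw [hρ, hρ₀, hθd]
      have : (4 : ℝ) ^ d = 2 ^ d * 2 ^ d := by
        rw [← mul_pow]; norm_num
      rw [this]
      field_simp
      ring
    rw [e1]
    have e2 : 384 * 4 ^ d * ((Mc : ℝ) + 1) * c = 1 := by
      rw [hc]
      field_simp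
    have e3 : (Mc : ℝ) * (96 * 4 ^ d * c * v) ≤ ((Mc : ℝ) + 1) * (96 * 4 ^ d * c * v) :=
      mul_le_mul_of_nonneg_right (by linarith) (by positivity)
    have e4 : ((Mc : ℝ) + 1) * (96 * 4 ^ d * c * v) = (384 * 4 ^ d * ((Mc : ℝ) + 1) * c) * (v / 4) := by
      ring
    rw [e4, e2, one_mul] at e3
    exact e3
  linarith

open Classical in
/-- **the uniform bound**: for every `d` there is `c > 0` such that the averages of
`ind V n * f (n + x 0) * ∏ F i (n + x (i + 1))` are at most `(1 - c)` times the density of `V` at almost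
all scales, if the two point correlations of `f` are small at almost all scales and the product satisfies
approximate dilation relations -/
theorem mainG (d : ℕ) :
    ∃ c : ℝ, 0 < c ∧ c < 1 ∧ ∀ Nl : Set ℕ → Prop, NullId Nl →
      ∀ f : ℕ → ℤ, (∀ n, |f n| ≤ 1) →
      ∀ (V : ℕ → Prop) (A : ℕ), 1 ≤ A → (∀ n, V (n + A) ↔ V n) → 0 < dv V A →
      (∀ R : ℕ, 1 ≤ R → ∀ δ : ℝ, 0 < δ → Nl (E2 f V A R δ)) →
      ∀ (x : Fin (d + 1) → ℕ), Function.Injective x →
      ∀ (F : Fin d → ℕ → ℂ), (∀ i n, ‖F i n‖ ≤ 1) →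
      ∀ (Bad : ℕ → Set ℕ) (s : ℕ → ℕ → ℂ) (K : ℝ), (∀ M p, ‖s M p‖ ≤ 1) →
        (∀ M p, p ∉ Bad M → 1 - c ≤ ‖s M p‖) →
        (∀ M X : ℕ, ∑ p ∈ (Icc 1 X).filter (fun p => p.Prime ∧ p ∈ Bad M), (1 : ℝ) / p ≤ K) →
      ∀ E : Set ℕ,
        (∀ W : ℕ, ∃ N₀ : ℕ, ∀ N ∈ E, N₀ ≤ N → ∀ M, N ≤ M → M ≤ W * N → ∀ p, p.Prime → p ≤ W →
          p % A = 1 % A → p ∉ Bad M → ∀ k, M ≤ W * k → p * k ≤ M → (∀ i, ¬ p ∣ k + x i) →
            ((f (p * (k + x 0)) : ℤ) : ℂ) * ∏ i : Fin d, F i (p * (k + x i.succ)) =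
              s M p * (((f (k + x 0) : ℤ) : ℂ) * ∏ i : Fin d, F i (k + x i.succ))) →
        (∀ N ∈ E, (1 - c) * dv V A < ‖AvC N (ps f V F x)‖) → Nl E := by
  obtain ⟨c, hc0, hc1, h⟩ := mainG0 Pool.Agent.Y304.U.pw
    (Pool.Agent.Y79.U.cube Pool.Agent.Y500.U.sv Pool.Agent.Y904.U.hav) Pool.Agent.Y105.U.box
    Pool.Agent.Y960.E.alg2 Pool.Agent.Y815.EC.cr d
  refine ⟨c, hc0, hc1, fun Nl hNl f hb V A hA hV hv hE2 x hx F hF Bad s K hs1 hs2 hK E hdil hEc => ?_⟩
  refine h Nl hNl f hb V A hA hV hv hE2 x hx F hF Bad (fun M p => -(s M p)) K ?_ ?_ hK E ?_ hEc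
  · intro M p
    show ‖-(s M p)‖ ≤ 1
    rw [norm_neg]
    exact hs1 M p
  · intro M p hp
    show 1 - c ≤ ‖-(s M p)‖
    rw [norm_neg]
    exact hs2 M p hp
  · intro W
    obtain ⟨N₀, hN₀⟩ := hdil W
    refine ⟨N₀, fun N hN hNN M h1 h2 p h3 h4 h5 h6 k h7 h8 h9 => ?_⟩
    show _ = -(-(s M p)) * _
    rw [neg_neg]
    exact hN₀ N hN hNN M h1 h2 p h3 h4 h5 h6 k h7 h8 h9

end Pool.Agent.R512.G
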